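import Pool.Agent.MP_0c16b3_nt.W.Spec

/-! A set with few patterns of four close elements is small. -/

namespace Pool.Agent.MP_0c16b3_nt.W

open Finset

theorem count : CountS := by
  classical
  intro N L η A hL hA h
  let good : ℕ → Prop := fun k => ∃ a b c : ℕ, 0 < a ∧ a < b ∧ b < c ∧ c ≤ L ∧
    k + a ∈ A ∧ k + b ∈ A ∧ k + c ∈ A
  let T : Finset (ℕ × ℕ × ℕ) :=
    (Icc 1 L ×ˢ Icc 1 L ×ˢ Icc 1 L).filter fun t => t.1 < t.2.1 ∧ t.2.1 < t.2.2
  have h1 : (A.filter good).card ≤ L ^ 3 * η := by
    have s : A.filter good ⊆ T.biUnion fun t =>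
        A.filter fun k => k + t.1 ∈ A ∧ k + t.2.1 ∈ A ∧ k + t.2.2 ∈ A := by
      intro k hk
      obtain ⟨hk, a, b, c, a0, ab, bc, cL, e⟩ := mem_filter.1 hk
      refine mem_biUnion.2 ⟨(a, b, c), ?_, mem_filter.2 ⟨hk, e⟩⟩
      simp only [T, mem_filter, mem_product, mem_Icc]
      omega
    refine (card_le_card s).trans ((card_biUnion_le_card_mul _ _ η fun t ht => ?_).trans ?_)
    · simp only [T, mem_filter, mem_product, mem_Icc] at ht
      exact h _ _ _ (by omega) ht.2.1 ht.2.2 (by omega)
    · refine Nat.mul_le_mul_right _ ((card_filter_le _ _).trans (le_of_eq ?_))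
      simp only [card_product, Nat.card_Icc, Nat.add_sub_cancel]
      ring
  have h2 : (A.filter fun k => ¬ good k).card ≤ 3 * (range (N / L + 1)).card := by
    refine card_le_mul_card_image_of_maps_to (f := fun k => k / L) (fun k hk => ?_) 3
      fun q _ => ?_
    · have := mem_range.1 (hA (mem_filter.1 hk).1)
      exact mem_range.2 (Nat.lt_succ_of_le (Nat.div_le_div_right this.le))
    · by_contra hc
      obtain ⟨F, hF, h4⟩ := exists_subset_card_eq (Nat.succ_le_of_lt (not_le.1 hc))
      let e := F.orderEmbOfFin h4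
      have hm : ∀ i, (e i ∈ A ∧ ¬ good (e i)) ∧ e i / L = q := fun i => by
        have := hF (F.orderEmbOfFin_mem h4 i)
        simpa only [mem_filter] using this
      have l1 : e 0 < e 1 := e.strictMono (by decide)
      have l2 : e 1 < e 2 := e.strictMono (by decide)
      have l3 : e 2 < e 3 := e.strictMono (by decide)
      have d0 := Nat.div_add_mod (e 0) L
      have d3 := Nat.div_add_mod (e 3) L
      have m3 := Nat.mod_lt (e 3) hL
      rw [(hm 0).2] at d0
      rw [(hm 3).2] at d3
      refine (hm 0).1.2 ⟨e 1 - e 0, e 2 - e 0, e 3 - e 0, by omega, by omega, by omega, by omega,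
        ?_, ?_, ?_⟩
      · rw [Nat.add_sub_cancel' l1.le]
        exact (hm 1).1.1
      · rw [Nat.add_sub_cancel' (l1.trans l2).le]
        exact (hm 2).1.1
      · rw [Nat.add_sub_cancel' ((l1.trans l2).trans l3).le]
        exact (hm 3).1.1
  rw [card_range] at h2
  have h3 := card_filter_add_card_filter_not (s := A) good
  omega

end Pool.Agent.MP_0c16b3_nt.W
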