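import Pool.Agent.MP_0c16b3_nt.W.Spec

/-! The derivative of a polynomial relation between the polynomials `F i`. -/

namespace Pool.Agent.MP_0c16b3_nt.W

open Polynomial

namespace Der

variable {A K : Type} [CommRing A] [CommRing K] {c : ℕ}

/-- The derivative of all coefficients. -/
noncomputable def dl (P : MvPolynomial (Fin c) A[X]) : MvPolynomial (Fin c) A[X] :=
  ∑ e ∈ P.support, MvPolynomial.monomial e (derivative (P.coeff e))

theorem coeff_dl (P : MvPolynomial (Fin c) A[X]) (e : Fin c →₀ ℕ) :
    (dl P).coeff e = derivative (P.coeff e) := by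
  classical
  rw [dl, MvPolynomial.coeff_sum]
  simp only [MvPolynomial.coeff_monomial]
  rw [Finset.sum_ite_eq']
  split_ifs with h
  · rfl
  · rw [MvPolynomial.notMem_support_iff.1 h, derivative_zero]

theorem dl_C (a : A[X]) :
    dl (MvPolynomial.C a : MvPolynomial (Fin c) A[X]) = MvPolynomial.C (derivative a) := by
  classical
  refine MvPolynomial.ext _ _ fun e => ?_
  rw [coeff_dl, MvPolynomial.coeff_C, MvPolynomial.coeff_C]
  split_ifs
  exacts [rfl, derivative_zero]

theorem dl_add (P Q : MvPolynomial (Fin c) A[X]) : dl (P + Q) = dl P + dl Q := by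
  refine MvPolynomial.ext _ _ fun e => ?_
  simp only [coeff_dl, MvPolynomial.coeff_add, derivative_add]

theorem dl_mul_X (P : MvPolynomial (Fin c) A[X]) (i : Fin c) :
    dl (P * MvPolynomial.X i) = dl P * MvPolynomial.X i := by
  classical
  refine MvPolynomial.ext _ _ fun e => ?_
  rw [coeff_dl, MvPolynomial.coeff_mul_X', MvPolynomial.coeff_mul_X', coeff_dl]
  split_ifs
  exacts [rfl, derivative_zero]

theorem chain (φ : A[X] →+* K[X]) (hφ : ∀ g, derivative (φ g) = φ (derivative g))
    (F : Fin c → K[X]) (P : MvPolynomial (Fin c) A[X]) :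
    derivative (MvPolynomial.eval₂ φ F P) = MvPolynomial.eval₂ φ F (dl P) +
      ∑ i, MvPolynomial.eval₂ φ F (MvPolynomial.pderiv i P) * derivative (F i) := by
  classical
  induction P using MvPolynomial.induction_on with
  | C a => simp [dl_C, hφ]
  | add P Q hP hQ =>
    simp only [dl_add, MvPolynomial.eval₂_add, map_add, hP, hQ, add_mul, Finset.sum_add_distrib]
    ring
  | mul_X P j hP =>
    have h1 : ∀ i : Fin c, MvPolynomial.eval₂ φ F (MvPolynomial.pderiv i (P * MvPolynomial.X j)) *
        derivative (F i) = MvPolynomial.eval₂ φ F (MvPolynomial.pderiv i P) * derivative (F i) *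
          F j + if j = i then MvPolynomial.eval₂ φ F P * derivative (F i) else 0 := by
      intro i
      rw [MvPolynomial.pderiv_mul, MvPolynomial.eval₂_add, MvPolynomial.eval₂_mul,
        MvPolynomial.eval₂_mul, MvPolynomial.eval₂_X]
      split_ifs with h
      · subst h
        rw [MvPolynomial.pderiv_X_self, MvPolynomial.eval₂_one]
        ring
      · rw [MvPolynomial.pderiv_X_of_ne h, MvPolynomial.eval₂_zero]
        ring
    simp only [h1]
    rw [Finset.sum_add_distrib, Finset.sum_ite_eq, if_pos (Finset.mem_univ _), ← Finset.sum_mul,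
      dl_mul_X, MvPolynomial.eval₂_mul, MvPolynomial.eval₂_mul, MvPolynomial.eval₂_X,
      derivative_mul, hP]
    ring

theorem evR_C (p : ℕ) (a : (ZMod p)[X]) : evR p (C a) = expand (ZMod p) p a := by simp [evR]

theorem evR_X (p : ℕ) : evR p X = X := by simp [evR]

theorem evR_der (p : ℕ) (g : (ZMod p)[X][X]) : derivative (evR p g) = evR p (derivative g) := by
  have h0 : ((p : ℕ) : (ZMod p)[X]) = 0 := by
    rw [← C_eq_natCast, ZMod.natCast_self, C_0]
  induction g using Polynomial.induction_on' with
  | add a b ha hb => simp only [map_add, ha, hb]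
  | monomial n a =>
    rw [← C_mul_X_pow_eq_monomial, derivative_C_mul_X_pow, map_mul (evR p), map_mul (evR p),
      map_pow (evR p), map_pow (evR p), evR_C, evR_C, evR_X, derivative_mul, derivative_expand, h0,
      derivative_X_pow, map_mul (expand (ZMod p) p), map_natCast, map_natCast]
    ring

theorem evR_lin (p i : ℕ) : evR p (lin (ZMod p)[X] i) = lin (ZMod p) i := by
  rw [lin, lin, map_add, evR_X, map_natCast, map_natCast, map_natCast]

theorem evR_qq (p c : ℕ) : evR p (qq (ZMod p)[X] c) = qq (ZMod p) c := by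
  simp only [qq, map_mul, map_prod, evR_X, evR_lin]

theorem evR_qi (p c : ℕ) (i : Fin c) : evR p (qi (ZMod p)[X] c i) = qi (ZMod p) c i := by
  simp only [qi, map_prod, evR_lin]

theorem qq_eq (i : Fin c) : qq K c = qi K c i * (X * lin K i) := by
  rw [qq, qi, ← Finset.mul_prod_erase Finset.univ (fun j : Fin c => lin K (j : ℕ))
    (Finset.mem_univ i)]
  ring

end Der

open Der in
theorem der : DerS := by
  intro p c _ F hF P
  refine ⟨MvPolynomial.C (qq (ZMod p)[X] c) * dl P + ∑ i : Fin c,
    MvPolynomial.C ((((i : ℕ) + 1 : ℕ) : (ZMod p)[X][X]) * qi (ZMod p)[X] c i * (X - C X)) *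
      MvPolynomial.pderiv i P, fun e => ?_, ?_⟩
  · rw [MvPolynomial.coeff_add, MvPolynomial.coeff_C_mul, coeff_dl, MvPolynomial.coeff_sum]
    congr 1
    refine Finset.sum_congr rfl fun i _ => ?_
    rw [MvPolynomial.coeff_C_mul, MvPolynomial.coeff_pderiv]
    push_cast
    ring
  · rw [chain (evR p) (evR_der p), MvPolynomial.eval₂_add, MvPolynomial.eval₂_mul,
      MvPolynomial.eval₂_C, evR_qq, MvPolynomial.eval₂_sum, mul_add, Finset.mul_sum]
    congr 1
    refine Finset.sum_congr rfl fun i _ => ?_
    have h := (hF i).2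
    rw [map_natCast] at h
    rw [MvPolynomial.eval₂_mul, MvPolynomial.eval₂_C, map_mul, map_mul, map_sub, evR_X, evR_C,
      expand_X, evR_qi, map_natCast, qq_eq i]
    linear_combination (-(qi (ZMod p) c i *
      MvPolynomial.eval₂ (evR p) F (MvPolynomial.pderiv i P))) * h

end Pool.Agent.MP_0c16b3_nt.W
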