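import Pool.Agent.MP_0c16b3_nt.W.Spec

/-! The dimension of the products of the spans. -/

namespace Pool.Agent.MP_0c16b3_nt.W

open Polynomial

namespace Dim

variable {K : Type} [Field K] {A : Type} [CommRing A] [Algebra K A]

theorem powV {n : ℕ} (f : Fin n → A) (m : ℕ) :
    subV K f ^ m ≤ Submodule.span K {x | ∃ e : Fin n → ℕ, (∀ i, e i ≤ m) ∧ x = ∏ i, f i ^ e i} := by
  induction m with
  | zero =>
    rw [pow_zero, Submodule.one_le]
    exact Submodule.subset_span ⟨0, fun _ => le_rfl, by simp⟩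
  | succ m ih =>
    rw [pow_succ]
    refine (mul_le_mul' ih le_rfl).trans ?_
    rw [subV, Submodule.span_mul_span]
    refine Submodule.span_mono ?_
    rintro _ ⟨_, ⟨e, he, rfl⟩, y, hy, rfl⟩
    rcases hy with rfl | ⟨j, rfl⟩
    · exact ⟨e, fun i => (he i).trans (Nat.le_succ _), mul_one _⟩
    · refine ⟨fun i => e i + if i = j then 1 else 0, fun i => ?_, ?_⟩
      · have := he i
        beta_reduce
        split_ifs <;> omega
      · simp only [pow_add, Finset.prod_mul_distrib]
        simp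

theorem powW (u : A) (a : ℕ) :
    subW K u ^ a ≤ Submodule.span K {x | ∃ j : ℕ, j ≤ a ∧ x = u ^ j} := by
  induction a with
  | zero =>
    rw [pow_zero, Submodule.one_le]
    exact Submodule.subset_span ⟨0, le_rfl, by simp⟩
  | succ a ih =>
    rw [pow_succ]
    refine (mul_le_mul' ih le_rfl).trans ?_
    rw [subW, Submodule.span_mul_span]
    refine Submodule.span_mono ?_
    rintro _ ⟨_, ⟨j, hj, rfl⟩, y, hy, rfl⟩
    rcases hy with rfl | rfl
    · exact ⟨j, hj.trans (Nat.le_succ _), mul_one _⟩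
    · exact ⟨j + 1, Nat.succ_le_succ hj, (pow_succ _ _).symm⟩

end Dim

theorem dim : DimS := by
  intro K _ A _ _ n u f α m
  let g : Fin (α + 1) × (Fin n → Fin (m + 1)) → A := fun t =>
    u ^ (t.1 : ℕ) * ∏ i, f i ^ (t.2 i : ℕ)
  have h : subW K u ^ α * subV K f ^ m ≤ Submodule.span K (Set.range g) := by
    refine (mul_le_mul' (Dim.powW u α) (Dim.powV f m)).trans ?_
    rw [Submodule.span_mul_span]
    refine Submodule.span_mono ?_
    rintro _ ⟨_, ⟨j, hj, rfl⟩, _, ⟨e, he, rfl⟩, rfl⟩
    exact ⟨(⟨j, Nat.lt_succ_of_le hj⟩, fun i => ⟨e i, Nat.lt_succ_of_le (he i)⟩), rfl⟩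
  have := FiniteDimensional.span_of_finite K (Set.finite_range g)
  refine (Submodule.finrank_mono h).trans ((finrank_range_le_card g).trans ?_)
  simp

end Pool.Agent.MP_0c16b3_nt.W
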