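import Pool.Agent.MP_0c16b3_nt.W.Spec

/-! Elimination of the two unknown quantities from three coincidences. -/

namespace Pool.Agent.MP_0c16b3_nt.W

open Polynomial

namespace Elim

open Finset

variable {S S' : Type} [CommRing S] [CommRing S']

/-- Sum of the first terms. -/
def A (q : ℕ → S) (j : ℕ) : S := ∑ i ∈ range j, q i

/-- Sum of the first squares. -/
def B (q : ℕ → S) (j : ℕ) : S := ∑ i ∈ range j, q i ^ 2

/-- Second elementary symmetric function of the first terms. -/
def E (q : ℕ → S) (j : ℕ) : S := ∑ i ∈ range j, A q i * q i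

/-- The two by two minors. -/
def D (q : ℕ → S) (u v : ℕ) : S := A q u * B q v - A q v * B q u

/-- The coefficients of the relation. -/
def R (q : ℕ → S) (a b c i : ℕ) : S :=
  q i ^ 2 * ((if i < a then D q b c else 0) - (if i < b then D q a c else 0) + D q a b)

/-- The right side of the relation. -/
def R0 (q : ℕ → S) (a b c : ℕ) : S := D q b c * E q a - D q a c * E q b + D q a b * E q c

lemma map_A (f : S →+* S') (q : ℕ → S) (j : ℕ) : f (A q j) = A (fun i => f (q i)) j := by
  simp only [A, map_sum]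

lemma map_B (f : S →+* S') (q : ℕ → S) (j : ℕ) : f (B q j) = B (fun i => f (q i)) j := by
  simp only [B, map_sum, map_pow]

lemma map_E (f : S →+* S') (q : ℕ → S) (j : ℕ) : f (E q j) = E (fun i => f (q i)) j := by
  simp only [E, map_sum, map_mul, map_A]

lemma map_D (f : S →+* S') (q : ℕ → S) (u v : ℕ) : f (D q u v) = D (fun i => f (q i)) u v := by
  simp only [D, map_sub, map_mul, map_A, map_B]

lemma map_R (f : S →+* S') (q : ℕ → S) (a b c i : ℕ) :
    f (R q a b c i) = R (fun i => f (q i)) a b c i := by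
  simp only [R, map_mul, map_pow, map_add, map_sub, apply_ite f, map_D, map_zero]

lemma map_R0 (f : S →+* S') (q : ℕ → S) (a b c : ℕ) :
    f (R0 q a b c) = R0 (fun i => f (q i)) a b c := by
  simp only [R0, map_mul, map_add, map_sub, map_D, map_E]

lemma core (q y φ ω t : ℕ → S) (Q : S) (c : ℕ) (hq : ∀ i < c, y i * q i = Q)
    (hω : ∀ i < c, y i * (ω (i + 1) - ω i) = -1)
    (hφ : ∀ i < c, y i ^ 2 * (φ (i + 1) - φ i) = y i * (1 - ω i) - t (i + 1)) (j : ℕ)
    (hj : j ≤ c) :
    Q * (ω j - ω 0) = - A q j ∧ Q ^ 2 * (φ j - φ 0) = (1 - ω 0) * Q * A q j - t 0 * B q j +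
      E q j - ∑ i ∈ range j, q i ^ 2 * (t (i + 1) - t 0) := by
  induction j with
  | zero => simp [A, B, E]
  | succ j ih =>
    obtain ⟨h1, h2⟩ := ih (by omega)
    have e1 := hq j (by omega)
    have e2 := hω j (by omega)
    have e3 := hφ j (by omega)
    have a1 : A q (j + 1) = A q j + q j := sum_range_succ _ _
    have a2 : B q (j + 1) = B q j + q j ^ 2 := sum_range_succ _ _
    have a3 : E q (j + 1) = E q j + A q j * q j := sum_range_succ _ _
    rw [a1, a2, a3, sum_range_succ]
    constructor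
    · linear_combination h1 + q j * e2 - (ω (j + 1) - ω j) * e1
    · linear_combination h2 + q j ^ 2 * e3 +
        (-(Q + q j * y j) * (φ (j + 1) - φ j) + q j * (1 - ω j)) * e1 - q j * h1

lemma sum_cut (g : ℕ → S) (d : S) (a c : ℕ) (h : a ≤ c) :
    ∑ i ∈ range c, (if i < a then d else 0) * g i = d * ∑ i ∈ range a, g i := by
  have e : (range c).filter (· < a) = range a := by
    ext i
    simp only [mem_filter, mem_range]
    omega
  rw [← e, sum_filter, mul_sum]
  refine sum_congr rfl fun i _ => ?_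
  split_ifs <;> simp

lemma rel (q y φ ω t : ℕ → S) (Q : S) (a b c : ℕ) (hab : a ≤ b) (hbc : b ≤ c)
    (hq : ∀ i < c, y i * q i = Q) (hω : ∀ i < c, y i * (ω (i + 1) - ω i) = -1)
    (hφ : ∀ i < c, y i ^ 2 * (φ (i + 1) - φ i) = y i * (1 - ω i) - t (i + 1))
    (ha : φ a = φ 0) (hb : φ b = φ 0) (hc : φ c = φ 0) :
    ∑ i ∈ range c, R q a b c i * (t (i + 1) - t 0) = R0 q a b c := by
  have h1 := (core q y φ ω t Q c hq hω hφ a (by omega)).2
  have h2 := (core q y φ ω t Q c hq hω hφ b hbc).2
  have h3 := (core q y φ ω t Q c hq hω hφ c le_rfl).2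
  rw [ha] at h1
  rw [hb] at h2
  rw [hc] at h3
  have e : ∑ i ∈ range c, R q a b c i * (t (i + 1) - t 0) =
      D q b c * ∑ i ∈ range a, q i ^ 2 * (t (i + 1) - t 0) -
        D q a c * ∑ i ∈ range b, q i ^ 2 * (t (i + 1) - t 0) +
          D q a b * ∑ i ∈ range c, q i ^ 2 * (t (i + 1) - t 0) := by
    rw [← sum_cut _ (D q b c) a c (by omega), ← sum_cut _ (D q a c) b c hbc, mul_sum,
      ← sum_sub_distrib, ← sum_add_distrib]
    refine sum_congr rfl fun i _ => ?_
    unfold R
    ring
  rw [e]
  unfold R0 D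
  linear_combination (A q b * B q c - A q c * B q b) * h1 -
    (A q a * B q c - A q c * B q a) * h2 + (A q a * B q b - A q b * B q a) * h3

lemma neg (q : ℕ → ℤ) (a c : ℕ) (ha : 0 < a) (hp : ∀ i < c, 0 < q i)
    (hd : ∀ i j, i < j → j < c → q j < q i) (b : ℕ) (hab : a < b) (hbc : b ≤ c) :
    D q a b < 0 := by
  have st : ∀ b, a ≤ b → b < c → D q a (b + 1) < D q a b := by
    intro b h1 h2
    have a1 : A q (b + 1) = A q b + q b := sum_range_succ _ _
    have a2 : B q (b + 1) = B q b + q b ^ 2 := sum_range_succ _ _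
    have h3 : A q a * q b < B q a := by
      unfold A B
      rw [sum_mul]
      refine sum_lt_sum_of_nonempty (nonempty_range_iff.2 ha.ne') fun i hi => ?_
      have hi' := mem_range.1 hi
      rw [sq]
      exact mul_lt_mul_of_pos_left (hd i b (by omega) h2) (hp i (by omega))
    have h4 := mul_lt_mul_of_pos_left h3 (hp b h2)
    unfold D
    rw [a1, a2]
    linarith
  induction b, hab using Nat.le_induction with
  | base =>
    have h := st a le_rfl (by omega)
    have e : D q a a = 0 := sub_self _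
    rw [e] at h
    exact h
  | succ b hb ih => exact (st b (by omega) (by omega)).trans (ih (by omega))

/-- The product of all linear factors but one. -/
noncomputable def qz (c i : ℕ) : ℤ[X] := ∏ j ∈ (range c).erase i, (X + ((j + 1 : ℕ) : ℤ[X]))

lemma qz_mul (f : ℤ[X] →+* S) (c i : ℕ) (h : i < c) :
    (f X + ((i + 1 : ℕ) : S)) * f (qz c i) = ∏ j ∈ range c, (f X + ((j + 1 : ℕ) : S)) := by
  rw [← mul_prod_erase _ _ (mem_range.2 h), qz, map_prod]
  simp only [map_add, map_natCast]

end Elim

open Elim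

theorem elim : ElimS := by
  intro a b n ha hab hbn
  refine ⟨R0 (qz (n + 1)) a b (n + 1), R (qz (n + 1)) a b (n + 1), ?_, ?_⟩
  · intro h
    have h1 := congrArg (evalRingHom (0 : ℤ)) h
    rw [map_R, map_zero] at h1
    set q : ℕ → ℤ := fun i => evalRingHom (0 : ℤ) (qz (n + 1) i) with hq
    have hm : ∀ i < n + 1, ((i + 1 : ℕ) : ℤ) * q i =
        ∏ j ∈ Finset.range (n + 1), ((j + 1 : ℕ) : ℤ) := by
      intro i hi
      have h2 := qz_mul (evalRingHom (0 : ℤ)) (n + 1) i hi
      have h3 : evalRingHom (0 : ℤ) X = 0 := eval_X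
      simpa only [h3, zero_add] using h2
    have hP : 0 < ∏ j ∈ Finset.range (n + 1), ((j + 1 : ℕ) : ℤ) :=
      Finset.prod_pos fun j _ => by positivity
    have hp : ∀ i < n + 1, 0 < q i := by
      intro i hi
      have h2 := hm i hi
      rw [← h2] at hP
      exact (mul_pos_iff_of_pos_left (by positivity)).1 hP
    have hd : ∀ i j, i < j → j < n + 1 → q j < q i := by
      intro i j hij hj
      have h2 := hm i (by omega)
      have h3 := hm j hj
      have h4 := hp j hj
      have h5 : ((i + 1 : ℕ) : ℤ) < ((j + 1 : ℕ) : ℤ) := by exact_mod_cast Nat.succ_lt_succ hij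
      have h6 := mul_lt_mul_of_pos_right h5 h4
      rw [h3, ← h2] at h6
      exact lt_of_mul_lt_mul_left h6 (by positivity)
    have h2 := neg q a (n + 1) ha hp hd b hab hbn.le
    have h3 := hp n (by omega)
    unfold R at h1
    rw [if_neg (by omega), if_neg (by omega), sub_self, zero_add] at h1
    exact mul_ne_zero (pow_ne_zero 2 h3.ne') h2.ne h1
  · intro K _ x φ ω t _ hω hφ h1 h2 h3
    have hX : (aeval x : ℤ[X] →ₐ[ℤ] K).toRingHom X = x := aeval_X x
    have h := rel (fun i => (aeval x : ℤ[X] →ₐ[ℤ] K).toRingHom (qz (n + 1) i))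
      (fun i => x + ((i + 1 : ℕ) : K)) φ ω t (∏ j ∈ Finset.range (n + 1), (x + ((j + 1 : ℕ) : K)))
      a b (n + 1) hab.le hbn.le
      (fun i hi => by
        have h4 := qz_mul (aeval x : ℤ[X] →ₐ[ℤ] K).toRingHom (n + 1) i hi
        rw [hX] at h4
        exact h4)
      (fun i hi => hω i (by omega)) (fun i hi => hφ i (by omega)) h1 h2 h3
    rw [← map_R0] at h
    simp only [← map_R] at h
    exact h

end Pool.Agent.MP_0c16b3_nt.W
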