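import Pool.Agent.MP_0c16b3_nt.W.Spec

/-! Evaluation on the set `S`: the last generator is removed by the linear relation. -/

namespace Pool.Agent.MP_0c16b3_nt.W

open Polynomial

namespace Evl

theorem powmap {K A B : Type} [CommRing K] [CommRing A] [CommRing B] [Algebra K A] [Algebra K B]
    (ev : A →ₐ[K] B) (c : B) (U : Submodule K A) (W : Submodule K B)
    (h : ∀ u ∈ U, c * ev u ∈ W) (m : ℕ) : ∀ v ∈ U ^ m, c ^ m * ev v ∈ W ^ m := by
  induction m with
  | zero =>
    intro v hv
    rw [pow_zero, Submodule.mem_one] at hv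
    obtain ⟨k, rfl⟩ := hv
    rw [pow_zero, pow_zero, one_mul, AlgHom.commutes]
    exact Submodule.mem_one.2 ⟨k, rfl⟩
  | succ m ih =>
    intro v hv
    rw [pow_succ] at hv
    rw [pow_succ W]
    refine Submodule.mul_induction_on hv (fun a ha b hb => ?_) (fun a b ha hb => ?_)
    · have e : c ^ (m + 1) * ev (a * b) = (c ^ m * ev a) * (c * ev b) := by
        rw [map_mul]; ring
      rw [e]
      exact Submodule.mul_mem_mul (ih a ha) (h b hb)
    · rw [map_add, mul_add]
      exact add_mem ha hb

theorem deg {K B : Type} [CommRing K] [CommRing B] [Algebra K B] (u : B) (d : ℕ) (f : K[X])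
    (hf : f.natDegree ≤ d) : aeval u f ∈ subW K u ^ d := by
  have h1 : (1 : B) ∈ subW K u := Submodule.subset_span (by simp)
  have hu : u ∈ subW K u := Submodule.subset_span (by simp)
  rw [aeval_eq_sum_range' (Nat.lt_succ_of_le hf)]
  refine Submodule.sum_mem _ fun i hi => Submodule.smul_mem _ _ ?_
  have hi' : i ≤ d := Nat.lt_succ_iff.1 (Finset.mem_range.1 hi)
  have e : subW K u ^ d = subW K u ^ i * subW K u ^ (d - i) := by
    rw [← pow_add, Nat.add_sub_cancel' hi']
  have := Submodule.mul_mem_mul (Submodule.pow_mem_pow _ hu i) (Submodule.pow_mem_pow _ h1 (d - i))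
  rwa [one_pow, mul_one, ← e] at this

theorem ev_eq {K : Type} [CommRing K] (S : Finset K) (f : K[X]) :
    aeval (fun x : ↥S => (x : K)) f = fun x : ↥S => f.eval (x : K) := by
  funext x
  have := aeval_algHom_apply (Pi.evalAlgHom K (fun _ : ↥S => K) x) (fun x : ↥S => (x : K)) f
  simpa [coe_aeval_eq_eval] using this.symm

end Evl

open Evl in
theorem evl : EvlS := by
  intro p n d _ F R R0 S hR hR0 hS α m g hg
  set u : ↥S → ZMod p := fun x => (x : ZMod p) with hu
  set U0 := subW (ZMod p) u with hU0
  set V0 := subV (ZMod p) (fun (i : Fin n) (x : ↥S) => (F i.castSucc).eval (x : ZMod p)) with hV0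
  set c : ↥S → ZMod p := aeval u (R (Fin.last n)) with hc
  have h1 : (1 : ↥S → ZMod p) ∈ U0 := Submodule.subset_span (by simp)
  have hx : u ∈ U0 := Submodule.subset_span (by simp)
  have v1 : (1 : ↥S → ZMod p) ∈ V0 := Submodule.subset_span (Set.mem_insert _ _)
  have vi : ∀ i : Fin n, aeval u (F i.castSucc) ∈ V0 := fun i =>
    Submodule.subset_span (Set.mem_insert_of_mem _ ⟨i, (ev_eq S _).symm⟩)
  have hU : ∀ a ∈ subU p, 1 * aeval u a ∈ U0 := by
    intro a ha
    rw [one_mul]
    refine Submodule.span_induction (fun y hy => ?_) (by simp) (fun a b _ _ k k' => ?_)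
      (fun k a _ h => ?_) ha
    · rcases hy with rfl | rfl | rfl
      · rwa [map_one]
      · rwa [aeval_X]
      · have e : u ^ p = u := funext fun x => ZMod.pow_card _
        rwa [map_pow, aeval_X, e]
    · rw [map_add]; exact add_mem k k'
    · rw [map_smul]; exact Submodule.smul_mem _ _ h
  have hV : ∀ b ∈ subV (ZMod p) F, c * aeval u b ∈ U0 ^ d * V0 := by
    intro b hb
    refine Submodule.span_induction (fun y hy => ?_) (by simp) (fun a b _ _ k k' => ?_)
      (fun k a _ h => ?_) hb
    · rcases hy with rfl | ⟨i, rfl⟩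
      · rw [map_one]
        exact Submodule.mul_mem_mul (deg u d _ (hR _)) v1
      · refine Fin.lastCases ?_ (fun i => Submodule.mul_mem_mul (deg u d _ (hR _)) (vi i)) i
        have e : c * aeval u (F (Fin.last n)) = aeval u R0 * 1 -
            ∑ i : Fin n, aeval u (R i.castSucc) * aeval u (F i.castSucc) := by
          funext x
          have := hS x x.2
          rw [Fin.sum_univ_castSucc] at this
          simp only [hc, hu, ev_eq, Pi.mul_apply, Pi.sub_apply, Finset.sum_apply, mul_one]
          rw [← this]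
          ring
        rw [e]
        exact sub_mem (Submodule.mul_mem_mul (deg u d _ hR0) v1)
          (Submodule.sum_mem _ fun i _ => Submodule.mul_mem_mul (deg u d _ (hR _)) (vi i))
    · rw [map_add, mul_add]; exact add_mem k k'
    · rw [map_smul, mul_smul_comm]; exact Submodule.smul_mem _ _ h
  have e : (fun x : ↥S => (R (Fin.last n)).eval (x : ZMod p) ^ m * g.eval (x : ZMod p)) =
      c ^ m * aeval u g := by
    funext x
    simp only [hc, hu, ev_eq, Pi.mul_apply, Pi.pow_apply]
  have e' : U0 ^ (α + m * d) * V0 ^ m = U0 ^ α * (U0 ^ d * V0) ^ m := by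
    rw [mul_pow, ← pow_mul, pow_add, mul_comm d m, mul_assoc]
  rw [e, e']
  refine Submodule.mul_induction_on hg (fun a ha b hb => ?_) (fun a b ha hb => ?_)
  · have k : c ^ m * aeval u (a * b) = (1 ^ α * aeval u a) * (c ^ m * aeval u b) := by
      rw [map_mul]; ring
    rw [k]
    exact Submodule.mul_mem_mul (powmap (aeval u) 1 _ _ hU α a ha) (powmap (aeval u) c _ _ hV m b hb)
  · rw [map_add, mul_add]
    exact add_mem ha hb

end Pool.Agent.MP_0c16b3_nt.W
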