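import Pool.Agent.MP_0c16b3_nt.W.Spec

/-! Independence of the finite family of products. -/

namespace Pool.Agent.MP_0c16b3_nt.W

open Polynomial

theorem fam (hI : IndS) : FamS := by
  intro c A B
  classical
  obtain ⟨p0, h⟩ := hI c (Finset.Iic (Finsupp.equivFunOnFinite.symm fun _ => B))
    (fun e i he => Finset.mem_Iic.2 (le_self_add.trans (Finset.mem_Iic.1 he))) A
  refine ⟨p0, fun p _ hp F hF g hg => ?_⟩
  have h0 := h p hp F hF (∑ t : Fin A × Fin B × (Fin c → Fin B),
    MvPolynomial.monomial (Finsupp.equivFunOnFinite.symm fun i => (t.2.2 i : ℕ))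
      (monomial t.1 (monomial t.2.1 (g t)))) ?_ ?_ ?_
  · funext ⟨a, b, e⟩
    have := congrArg (fun P : MvPolynomial (Fin c) (ZMod p)[X][X] =>
      ((P.coeff (Finsupp.equivFunOnFinite.symm fun i => (e i : ℕ))).coeff a).coeff b) h0
    simp only [MvPolynomial.coeff_sum, finsetSum_coeff, MvPolynomial.coeff_zero,
      coeff_zero] at this
    rw [Finset.sum_eq_single (a, b, e)] at this
    · simpa using this
    · rintro ⟨a', b', e'⟩ - hne
      rw [MvPolynomial.coeff_monomial]
      split_ifs with h1
      · have h2 : e' = e := funext fun i =>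
          Fin.ext (congrFun (Finsupp.equivFunOnFinite.symm.injective h1) i)
        rw [coeff_monomial]
        split_ifs with h3
        · rw [coeff_monomial, if_neg]
          intro h4
          exact hne (Prod.ext (Fin.ext h3) (Prod.ext (Fin.ext h4) h2))
        · rfl
      · rfl
    · exact fun h => absurd (Finset.mem_univ _) h
  · intro e he
    obtain ⟨t, -, ht⟩ := Finset.mem_biUnion.1 (MvPolynomial.support_sum he)
    rw [Finset.mem_singleton.1 (MvPolynomial.support_monomial_subset ht), Finset.mem_Iic]
    exact fun i => (t.2.2 i).2.le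
  · intro e
    rw [MvPolynomial.coeff_sum]
    refine natDegree_sum_le_of_forall_le _ _ fun t _ => ?_
    rw [MvPolynomial.coeff_monomial]
    split_ifs
    · exact (natDegree_monomial_le _).trans t.1.2.le
    · simp
  · rw [MvPolynomial.eval₂_sum, ← hg]
    refine Finset.sum_congr rfl fun t _ => ?_
    rw [MvPolynomial.eval₂_monomial, Finsupp.prod_fintype _ _ fun _ => pow_zero _]
    congr 1
    rw [evR, coe_eval₂RingHom, eval₂_monomial]
    change expand (ZMod p) p _ * _ = _
    rw [← C_mul_X_pow_eq_monomial, map_mul, map_pow, expand_C, expand_X]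
    ring

end Pool.Agent.MP_0c16b3_nt.W
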