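import Pool.Agent.MP_0c16b3_nt.W.Spec

/-! The operator `qq * d/dX` raises the filtration by `c + 1`. -/

namespace Pool.Agent.MP_0c16b3_nt.W

open Polynomial

namespace FiltL

variable {K : Type} [CommRing K]

theorem pow_le {W : Submodule K K[X]} (h1 : (1 : K[X]) ∈ W) (a : ℕ) : W ^ a ≤ W ^ (a + 1) := by
  intro g hg
  rw [pow_succ, ← mul_one g]
  exact Submodule.mul_mem_mul hg h1

theorem der_pow (q : K[X]) {T W : Submodule K K[X]} (h1 : (1 : K[X]) ∈ W)
    (h : ∀ w ∈ W, q * derivative w ∈ T) (m : ℕ) :
    ∀ g ∈ W ^ m, q * derivative g ∈ T * W ^ m := by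
  induction m with
  | zero =>
    intro g hg
    rw [pow_zero, Submodule.mem_one] at hg
    obtain ⟨r, rfl⟩ := hg
    rw [algebraMap_eq, derivative_C, mul_zero]
    exact zero_mem _
  | succ m ih =>
    intro g hg
    rw [pow_succ] at hg
    refine Submodule.mul_induction_on hg (fun a ha b hb => ?_) fun x y hx hy => ?_
    · have e : q * derivative (a * b) = q * derivative a * b + q * derivative b * a := by
        rw [derivative_mul]; ring
      rw [e]
      refine add_mem ?_ (Submodule.mul_mem_mul (h b hb) (pow_le h1 m ha))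
      rw [pow_succ, ← mul_assoc]
      exact Submodule.mul_mem_mul (ih a ha) hb
    · rw [derivative_add, mul_add]
      exact add_mem hx hy

theorem der_span (q : K[X]) {T : Submodule K K[X]} {s : Set K[X]}
    (h : ∀ w ∈ s, q * derivative w ∈ T) : ∀ w ∈ Submodule.span K s, q * derivative w ∈ T := by
  intro w hw
  induction hw using Submodule.span_induction with
  | mem x hx => exact h x hx
  | zero => rw [derivative_zero, mul_zero]; exact zero_mem _
  | add x y _ _ hx hy => rw [derivative_add, mul_add]; exact add_mem hx hy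
  | smul a x _ hx => rw [derivative_smul, mul_smul_comm]; exact T.smul_mem a hx

theorem prod_mem {ι : Type} {W : Submodule K K[X]} (f : ι → K[X]) (hf : ∀ i, f i ∈ W)
    (s : Finset ι) : ∏ i ∈ s, f i ∈ W ^ s.card := by
  classical
  induction s using Finset.induction_on with
  | empty => rw [Finset.prod_empty, Finset.card_empty, pow_zero]; exact Submodule.one_le.1 le_rfl
  | insert a s ha ih =>
    rw [Finset.prod_insert ha, Finset.card_insert_of_notMem ha, pow_succ']
    exact Submodule.mul_mem_mul (hf a) ih

end FiltL

open FiltL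

theorem filt : FiltS := by
  intro p c _ F hF α m g hg
  have u1 : (1 : (ZMod p)[X]) ∈ subU p := Submodule.subset_span (by simp)
  have uX : (X : (ZMod p)[X]) ∈ subU p := Submodule.subset_span (by simp)
  have uP : (X ^ p : (ZMod p)[X]) ∈ subU p := Submodule.subset_span (by simp)
  have v1 : (1 : (ZMod p)[X]) ∈ subV (ZMod p) F := Submodule.subset_span (by simp)
  have ul : ∀ i : ℕ, lin (ZMod p) i ∈ subU p := fun i => by
    refine add_mem uX ?_
    rw [← mul_one (C _), ← smul_eq_C_mul]
    exact Submodule.smul_mem _ _ u1
  have hq : qq (ZMod p) c ∈ subU p ^ (c + 1) := by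
    have := prod_mem (fun i : Fin c => lin (ZMod p) i) (fun i => ul i) Finset.univ
    rw [Finset.card_univ, Fintype.card_fin] at this
    rw [pow_succ']
    exact Submodule.mul_mem_mul uX this
  have hi : ∀ i : Fin c, qi (ZMod p) c i ∈ subU p ^ c := fun i => by
    have := pow_le u1 _
      (prod_mem (fun j : Fin c => lin (ZMod p) j) (fun j => ul j) (Finset.univ.erase i))
    rwa [Finset.card_erase_add_one (Finset.mem_univ i), Finset.card_univ, Fintype.card_fin] at this
  have hU : ∀ w ∈ subU p, qq (ZMod p) c * derivative w ∈ subU p ^ (c + 1) := by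
    refine der_span _ ?_
    rintro w (rfl | rfl | rfl)
    · rw [derivative_one, mul_zero]; exact zero_mem _
    · rw [derivative_X, mul_one]; exact hq
    · rw [derivative_X_pow, ZMod.natCast_self, C_0, zero_mul, mul_zero]; exact zero_mem _
  have hV : ∀ w ∈ subV (ZMod p) F, qq (ZMod p) c * derivative w ∈ subU p ^ (c + 1) := by
    refine der_span _ ?_
    rintro w (rfl | ⟨i, rfl⟩)
    · rw [derivative_one, mul_zero]; exact zero_mem _
    · have e : qq (ZMod p) c * derivative (F i) =
          qi (ZMod p) c i * (X * lin (ZMod p) i * derivative (F i)) := by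
        rw [qq, qi, ← Finset.mul_prod_erase _ _ (Finset.mem_univ i)]; ring
      rw [e, (hF i).2, pow_succ, ← smul_eq_C_mul]
      exact Submodule.mul_mem_mul (hi i) (Submodule.smul_mem _ _ (sub_mem uX uP))
  refine Submodule.mul_induction_on hg (fun a ha b hb => ?_) fun x y hx hy => ?_
  · have e : qq (ZMod p) c * derivative (a * b) =
        qq (ZMod p) c * derivative a * b + a * (qq (ZMod p) c * derivative b) := by
      rw [derivative_mul]; ring
    rw [e, pow_add]
    refine add_mem (Submodule.mul_mem_mul ?_ hb) ?_
    · rw [mul_comm (subU p ^ α)]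
      exact der_pow _ u1 hU α a ha
    · rw [mul_assoc]
      exact Submodule.mul_mem_mul ha (der_pow _ v1 hV m b hb)
  · rw [derivative_add, mul_add]
    exact add_mem hx hy

end Pool.Agent.MP_0c16b3_nt.W
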