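import Pool.Agent.MP_0c16b3_nt.W.Spec

/-! Independence in characteristic `p` by induction on the set of exponents. -/

namespace Pool.Agent.MP_0c16b3_nt.W

open Polynomial

namespace Ind

theorem lin_deg (A : Type) [CommRing A] (i : ℕ) : (lin A i).natDegree ≤ 1 := by
  unfold lin
  compute_degree

theorem qi_deg (A : Type) [CommRing A] (c : ℕ) (i : Fin c) : (qi A c i).natDegree ≤ c := by
  unfold qi
  refine (natDegree_prod_le _ _).trans ?_
  refine (Finset.sum_le_card_nsmul _ _ 1 (fun (j : Fin c) _ => lin_deg A j)).trans ?_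
  have := Finset.card_le_univ (Finset.univ.erase i)
  simpa using this

theorem qq_deg (A : Type) [CommRing A] (c : ℕ) : (qq A c).natDegree ≤ c + 1 := by
  unfold qq
  refine natDegree_mul_le.trans ?_
  have h1 : (X : A[X]).natDegree ≤ 1 := natDegree_X_le
  have h2 : (∏ i : Fin c, lin A i).natDegree ≤ c := by
    refine (natDegree_prod_le _ _).trans ?_
    refine (Finset.sum_le_card_nsmul _ _ 1 (fun (j : Fin c) _ => lin_deg A j)).trans ?_
    simp
  omega

theorem qq_eq (A : Type) [CommRing A] (c : ℕ) (i : Fin c) :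
    qq A c = lin A i * (X * qi A c i) := by
  unfold qq qi
  rw [← Finset.mul_prod_erase Finset.univ (fun j : Fin c => lin A (j : ℕ)) (Finset.mem_univ i)]
  ring

theorem cast_inj (p : ℕ) [Fact p.Prime] {i j : ℕ} (hi : i < p) (hj : j < p)
    (h : (i : (ZMod p)[X]) = (j : (ZMod p)[X])) : i = j := by
  have := (CharP.natCast_eq_natCast ((ZMod p)[X]) p).1 h
  exact Nat.ModEq.eq_of_lt_of_lt this hi hj

theorem cast_ne (p : ℕ) [Fact p.Prime] {i : ℕ} (h0 : i ≠ 0) (hi : i < p) :
    (i : (ZMod p)[X]) ≠ 0 := by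
  intro h
  exact h0 (cast_inj p hi (by omega) (by simpa using h))

theorem deg_add {c : ℕ} (e : Fin c →₀ ℕ) (i : Fin c) :
    (e + Finsupp.single i 1).degree = e.degree + 1 := by
  simp

end Ind

open Ind in
theorem ind (hW : WroS) (hL : LocS) (hB : BaseS) (hD : DerS) : IndS := by
  intro c E
  induction E using Finset.strongInduction with
  | H E ih =>
  intro hE A
  rcases E.eq_empty_or_nonempty with rfl | hne
  · refine ⟨0, fun p _ _ F _ P hP _ _ => ?_⟩
    exact MvPolynomial.support_eq_empty.1 (Finset.subset_empty.1 hP)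
  obtain ⟨e0, he0, hmax⟩ := E.exists_max_image (fun e => e.degree) hne
  have hE' : ∀ (e : Fin c →₀ ℕ) (i : Fin c), e + Finsupp.single i 1 ∈ E.erase e0 →
      e ∈ E.erase e0 := by
    intro e i h
    have h1 := Finset.mem_of_mem_erase h
    refine Finset.mem_erase.2 ⟨?_, hE e i h1⟩
    rintro rfl
    have := hmax _ h1
    simp only [deg_add] at this
    omega
  obtain ⟨p1, h1⟩ := ih (E.erase e0) (Finset.erase_ssubset he0) hE' A
  obtain ⟨p2, h2⟩ := ih (E.erase e0) (Finset.erase_ssubset he0) hE' (2 * A + c + 1)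
  refine ⟨p1 + p2 + A + c + e0.degree + 2, ?_⟩
  intro p _ hp F hF P hP hA h0
  have hout : ∀ e, e ∉ E → P.coeff e = 0 := fun e he =>
    MvPolynomial.notMem_support_iff.1 (fun h => he (hP h))
  have hz : ∀ (e : Fin c →₀ ℕ) (i : Fin c), e.degree = e0.degree →
      P.coeff (e + Finsupp.single i 1) = 0 := by
    intro e i he
    refine hout _ (fun h => ?_)
    have := hmax _ h
    simp only [deg_add] at this
    omega
  by_cases hp0 : P.coeff e0 = 0
  · refine h1 p (by omega) F hF P ?_ hA h0
    intro e he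
    refine Finset.mem_erase.2 ⟨?_, hP he⟩
    rintro rfl
    exact MvPolynomial.mem_support_iff.1 he hp0
  exfalso
  by_cases hd : e0 = 0
  · subst hd
    have hPC : P = MvPolynomial.C (P.coeff 0) := by
      ext1 e
      rw [MvPolynomial.coeff_C]
      split_ifs with h
      · rw [h]
      · refine hout e (fun he => h ?_)
        have := hmax e he
        simp only [map_zero, nonpos_iff_eq_zero] at this
        exact ((Finsupp.degree_eq_zero_iff e).1 this).symm
    rw [hPC, MvPolynomial.eval₂_C] at h0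
    exact hp0 (hB p _ (lt_of_le_of_lt (hA 0) (by omega)) h0)
  obtain ⟨i0, hi0⟩ : ∃ i, e0 i ≠ 0 := by
    by_contra h
    push Not at h
    exact hd (Finsupp.ext h)
  obtain ⟨P', hc, hev⟩ := hD p c F hF P
  obtain ⟨a, ha⟩ : ∃ a, a = P.coeff e0 := ⟨_, rfl⟩
  obtain ⟨Ps, hPsdef⟩ : ∃ Ps : MvPolynomial (Fin c) (ZMod p)[X][X], Ps =
      MvPolynomial.C a * P' - MvPolynomial.C (qq (ZMod p)[X] c * derivative a) * P := ⟨_, rfl⟩
  have hcs : ∀ e, Ps.coeff e = a * P'.coeff e - qq (ZMod p)[X] c * derivative a * P.coeff e := by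
    intro e
    rw [hPsdef, MvPolynomial.coeff_sub, MvPolynomial.coeff_C_mul, MvPolynomial.coeff_C_mul]
  have haA : a.natDegree ≤ A := ha ▸ hA e0
  have hPs : Ps = 0 := by
    refine h2 p (by omega) F hF Ps ?_ ?_ ?_
    · intro e he
      have hne0 := MvPolynomial.mem_support_iff.1 he
      refine Finset.mem_erase.2 ⟨?_, ?_⟩
      · rintro rfl
        apply hne0
        rw [hcs, hc, Finset.sum_eq_zero (fun i _ => by rw [hz e i rfl]; simp), ← ha]
        ring
      · by_contra hn
        apply hne0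
        rw [hcs, hc, Finset.sum_eq_zero
          (fun i _ => by rw [hout _ (fun h => hn (hE e i h))]; simp), hout e hn]
        simp
    · intro e
      rw [hcs, hc]
      have hq := qq_deg (ZMod p)[X] c
      have hde : (derivative (P.coeff e)).natDegree ≤ A :=
        (natDegree_derivative_le _).trans ((Nat.sub_le _ _).trans (hA e))
      have hda : (derivative a).natDegree ≤ A :=
        (natDegree_derivative_le _).trans ((Nat.sub_le _ _).trans haA)
      refine (natDegree_sub_le _ _).trans (max_le ?_ ?_)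
      · refine natDegree_mul_le.trans ?_
        have : (qq (ZMod p)[X] c * derivative (P.coeff e) +
            ∑ i : Fin c, (((i : ℕ) + 1 : ℕ) : (ZMod p)[X][X]) * qi (ZMod p)[X] c i * (X - C X) *
            (((e i + 1 : ℕ) : (ZMod p)[X][X]) * P.coeff (e + Finsupp.single i 1))).natDegree ≤
            A + c + 1 := by
          refine (natDegree_add_le _ _).trans (max_le ?_ ?_)
          · refine natDegree_mul_le.trans ?_
            omega
          · refine natDegree_sum_le_of_forall_le _ _ (fun i _ => ?_)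
            have k1 := qi_deg (ZMod p)[X] c i
            have k2 : (X - C X : (ZMod p)[X][X]).natDegree ≤ 1 := natDegree_X_sub_C_le _
            have k3 := hA (e + Finsupp.single i 1)
            have k4 : ∀ n : ℕ, ((n : ℕ) : (ZMod p)[X][X]).natDegree = 0 := fun n =>
              natDegree_natCast n
            refine natDegree_mul_le.trans ?_
            have k5 : ((((i : ℕ) + 1 : ℕ) : (ZMod p)[X][X]) * qi (ZMod p)[X] c i *
                (X - C X)).natDegree ≤ c + 1 := by
              refine natDegree_mul_le.trans ?_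
              have : ((((i : ℕ) + 1 : ℕ) : (ZMod p)[X][X]) * qi (ZMod p)[X] c i).natDegree ≤ c := by
                refine natDegree_mul_le.trans ?_
                rw [k4]; omega
              omega
            have k6 : (((e i + 1 : ℕ) : (ZMod p)[X][X]) *
                P.coeff (e + Finsupp.single i 1)).natDegree ≤ A := by
              refine natDegree_mul_le.trans ?_
              rw [k4]; omega
            omega
        omega
      · refine natDegree_mul_le.trans ?_
        have : (qq (ZMod p)[X] c * derivative a).natDegree ≤ c + 1 + A :=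
          natDegree_mul_le.trans (by omega)
        have := hA e
        omega
    · rw [hPsdef, MvPolynomial.eval₂_sub, MvPolynomial.eval₂_mul, MvPolynomial.eval₂_mul, hev, h0]
      simp
  have hco : ∀ e, a * P'.coeff e - qq (ZMod p)[X] c * derivative a * P.coeff e = 0 := by
    intro e
    rw [← hcs, hPs, MvPolynomial.coeff_zero]
  obtain ⟨t, ht⟩ : ∃ t : (ZMod p)[X], t = -(((i0 : ℕ) + 1 : ℕ) : (ZMod p)[X]) := ⟨_, rfl⟩
  have hlin : lin (ZMod p)[X] i0 = X - C t := by
    rw [ht, lin, map_neg, sub_neg_eq_add]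
  have ha0 : a ≠ 0 := ha ▸ hp0
  obtain ⟨a1, ha1, hnd⟩ := exists_eq_pow_rootMultiplicity_mul_and_not_dvd a ha0 t
  obtain ⟨μ, hμ⟩ : ∃ μ, μ = a.rootMultiplicity t := ⟨_, rfl⟩
  rw [← hμ] at ha1
  have ha1t : a1.eval t ≠ 0 := fun h => hnd (dvd_iff_isRoot.2 h)
  have hμA : μ ≤ A := by
    have h3 : (X - C t) ^ μ ∣ a := ⟨a1, ha1⟩
    have h4 := natDegree_le_of_dvd h3 ha0
    rw [natDegree_pow, natDegree_X_sub_C, mul_one] at h4
    omega
  have hinj : ∀ i j : ℕ, i ≤ A → j ≤ A → (i : (ZMod p)[X]) = (j : (ZMod p)[X]) → i = j :=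
    fun i j hi hj h => cast_inj p (by omega) (by omega) h
  have hi0c := i0.2
  have ht0 : t ≠ 0 := by
    rw [ht, neg_ne_zero]
    exact cast_ne p (by omega) (by omega)
  have hqi : (qi (ZMod p)[X] c i0).eval t ≠ 0 := by
    unfold qi
    rw [eval_prod]
    refine Finset.prod_ne_zero_iff.2 (fun j hj h => ?_)
    have hj2 := j.2
    rw [lin, eval_add, eval_X, eval_C, ht, neg_add_eq_zero] at h
    have := cast_inj p (by omega) (by omega) h
    exact (Finset.mem_erase.1 hj).1 (Fin.ext (by omega))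
  have hqj : ∀ i : Fin c, i ≠ i0 → (qi (ZMod p)[X] c i).eval t = 0 := by
    intro i hi
    unfold qi
    rw [eval_prod]
    refine Finset.prod_eq_zero (Finset.mem_erase.2 ⟨hi.symm, Finset.mem_univ i0⟩) ?_
    rw [hlin]
    simp
  have hq : (X * qi (ZMod p)[X] c i0).eval t ≠ 0 := by
    rw [eval_mul, eval_X]
    exact mul_ne_zero ht0 hqi
  have hqq : qq (ZMod p)[X] c = (X - C t) * (X * qi (ZMod p)[X] c i0) := by
    rw [qq_eq _ c i0, hlin]
  have hqq0 : qq (ZMod p)[X] c ≠ 0 := by
    rw [hqq]
    exact mul_ne_zero (X_sub_C_ne_zero t) (fun h => hq (by rw [h, eval_zero]))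
  have htop : ∀ e : Fin c →₀ ℕ, e.degree = e0.degree → (X - C t) ^ μ ∣ P.coeff e := by
    intro e he
    refine hW _ t A μ a1 _ hinj hμA ha1t ?_
    have h3 := hco e
    rw [hc, Finset.sum_eq_zero (fun i _ => by rw [hz e i he]; simp)] at h3
    rw [← ha1]
    apply mul_left_cancel₀ hqq0
    linear_combination h3
  obtain ⟨e1, he1⟩ : ∃ e1 : Fin c →₀ ℕ, e1 + Finsupp.single i0 1 = e0 := by
    refine ⟨e0 - Finsupp.single i0 1, tsub_add_cancel_of_le ?_⟩
    rw [Finsupp.single_le_iff]
    omega
  have hdeg : ∀ i : Fin c, (e1 + Finsupp.single i 1).degree = e0.degree := by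
    intro i
    rw [← he1, deg_add, deg_add]
  choose b hb using fun i : Fin c => htop _ (hdeg i)
  have hbi : b i0 = a1 := by
    have h3 := hb i0
    rw [he1, ← ha, ha1] at h3
    exact (mul_left_cancel₀ (pow_ne_zero _ (X_sub_C_ne_zero t)) h3).symm
  have he1i : e1 i0 + 1 ≤ e0.degree := by
    have h3 : e0 i0 = e1 i0 + 1 := by rw [← he1]; simp
    rw [← h3]
    exact Finsupp.le_degree i0 e0
  refine hL _ t A μ a1 (P.coeff e1)
    (∑ i : Fin c, (((i : ℕ) + 1 : ℕ) : (ZMod p)[X][X]) * qi (ZMod p)[X] c i * (X - C X) *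
      (((e1 i + 1 : ℕ) : (ZMod p)[X][X]) * b i)) (X * qi (ZMod p)[X] c i0)
    hinj hμA (hA e1) ha1t ?_ hq ?_
  · rw [eval_finsetSum, Finset.sum_eq_single i0
      (fun i _ hi => by rw [eval_mul, eval_mul, eval_mul, hqj i hi]; simp) (by simp)]
    rw [eval_mul, eval_mul, eval_mul, eval_mul, eval_natCast, eval_natCast, hbi, eval_sub, eval_X,
      eval_C]
    refine mul_ne_zero (mul_ne_zero (mul_ne_zero (cast_ne p (by omega) (by omega)) hqi) ?_)
      (mul_ne_zero (cast_ne p (by omega) (by omega)) ha1t)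
    intro h
    have h3 := congrArg (fun f : (ZMod p)[X] => f.coeff 1) h
    simp only [ht, coeff_sub, coeff_neg, coeff_X_one, coeff_zero, coeff_natCast_ite] at h3
    simp at h3
  · have h3 := hco e1
    rw [hc] at h3
    have h4 : ∑ i : Fin c, (((i : ℕ) + 1 : ℕ) : (ZMod p)[X][X]) * qi (ZMod p)[X] c i * (X - C X) *
        (((e1 i + 1 : ℕ) : (ZMod p)[X][X]) * P.coeff (e1 + Finsupp.single i 1)) =
        (X - C t) ^ μ * ∑ i : Fin c, (((i : ℕ) + 1 : ℕ) : (ZMod p)[X][X]) * qi (ZMod p)[X] c i *
          (X - C X) * (((e1 i + 1 : ℕ) : (ZMod p)[X][X]) * b i) := by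
      rw [Finset.mul_sum]
      refine Finset.sum_congr rfl (fun i _ => ?_)
      rw [hb i]
      ring
    rw [h4, hqq] at h3
    rw [← ha1]
    linear_combination h3

end Pool.Agent.MP_0c16b3_nt.W
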