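import Pool.Agent.MP_0c16b3_nt.W.Spec

/-! Local facts on Wronskians at a point. -/

namespace Pool.Agent.MP_0c16b3_nt.W

open Polynomial

namespace Loc

variable {R : Type} [CommRing R]

theorem der_pow (t : R) (k : ℕ) :
    (X - C t) * derivative ((X - C t) ^ k) = C (k : R) * (X - C t) ^ k := by
  cases k with
  | zero => simp
  | succ k =>
    rw [derivative_X_sub_C_pow, Nat.add_sub_cancel, pow_succ]
    ring

/-- The cofactor of the Wronskian. -/
noncomputable def zz (t : R) (μ ν : ℕ) (a b : R[X]) : R[X] :=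
  (C (ν : R) - C (μ : R)) * a * b + (X - C t) * (a * derivative b - derivative a * b)

theorem ident (t : R) (μ ν : ℕ) (a b : R[X]) :
    (X - C t) * (((X - C t) ^ μ * a) * derivative ((X - C t) ^ ν * b) -
      derivative ((X - C t) ^ μ * a) * ((X - C t) ^ ν * b)) =
        (X - C t) ^ (μ + ν) * zz t μ ν a b := by
  have h1 := der_pow t μ
  have h2 := der_pow t ν
  rw [derivative_mul, derivative_mul, pow_add, zz]
  linear_combination ((X - C t) ^ μ * a * b) * h2 - ((X - C t) ^ ν * a * b) * h1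

theorem zz_eval (t : R) (μ ν : ℕ) (a b : R[X]) :
    (zz t μ ν a b).eval t = ((ν : R) - μ) * a.eval t * b.eval t := by
  simp [zz]

theorem split (t : R) {b : R[X]} (hb : b ≠ 0) :
    ∃ (ν : ℕ) (b1 : R[X]), b = (X - C t) ^ ν * b1 ∧ b1.eval t ≠ 0 := by
  obtain ⟨b1, h1, h2⟩ := exists_eq_pow_rootMultiplicity_mul_and_not_dvd b hb t
  exact ⟨_, b1, h1, fun h => h2 (dvd_iff_isRoot.2 h)⟩

theorem zz_ne [IsDomain R] {t : R} {A μ ν : ℕ} {a b : R[X]}
    (h : ∀ i j : ℕ, i ≤ A → j ≤ A → (i : R) = (j : R) → i = j) (hμ : μ ≤ A) (hν : ν ≤ A)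
    (ne : ν ≠ μ) (ha : a.eval t ≠ 0) (hb : b.eval t ≠ 0) : (zz t μ ν a b).eval t ≠ 0 := by
  rw [zz_eval]
  exact mul_ne_zero (mul_ne_zero (sub_ne_zero.2 fun e => ne (h _ _ hν hμ e)) ha) hb

end Loc

open Loc

theorem wro : WroS := by
  intro R _ _ t A μ a1 b h hμ ha e
  by_cases hb : b = 0
  · simp [hb]
  obtain ⟨ν, b1, rfl, h1⟩ := split t hb
  by_cases hl : μ ≤ ν
  · exact (pow_dvd_pow _ hl).mul_right _
  have k := ident t μ ν a1 b1
  rw [e, sub_self, mul_zero] at k
  have z := (mul_eq_zero.1 k.symm).resolve_left (pow_ne_zero _ (X_sub_C_ne_zero t))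
  exact (zz_ne (ν := ν) h hμ (by omega) (by omega) ha h1 (by rw [z, eval_zero])).elim

theorem loc : LocS := by
  intro R _ _ t A μ a1 r w q h hμ hr ha hw hq e
  have hy : (X - C t : R[X]) ≠ 0 := X_sub_C_ne_zero t
  have ha0 : a1 ≠ 0 := fun k => ha (by rw [k, eval_zero])
  have hw0 : w ≠ 0 := fun k => hw (by rw [k, eval_zero])
  by_cases hb : r = 0
  · rw [hb, derivative_zero, mul_zero, mul_zero, sub_zero, mul_zero, zero_add] at e
    exact mul_ne_zero (mul_ne_zero (pow_ne_zero _ hy) ha0) (mul_ne_zero (pow_ne_zero _ hy) hw0) e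
  obtain ⟨ν, b1, rfl, h1⟩ := split t hb
  have hb0 : b1 ≠ 0 := fun k => h1 (by rw [k, eval_zero])
  have hν : ν ≤ A := by
    rw [natDegree_mul (pow_ne_zero _ hy) hb0, natDegree_pow, natDegree_X_sub_C] at hr
    omega
  have k : (X - C t) ^ μ * (q * (X - C t) ^ ν * zz t μ ν a1 b1 + (X - C t) ^ μ * (a1 * w)) = 0 := by
    have i := ident t μ ν a1 b1
    rw [pow_add] at i
    linear_combination e - q * i
  have k1 := (mul_eq_zero.1 k).resolve_left (pow_ne_zero _ hy)
  rcases lt_trichotomy ν μ with l | l | l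
  · obtain ⟨d, rfl⟩ := Nat.exists_eq_add_of_lt l
    have k2 : (X - C t) ^ ν * (q * zz t (ν + d + 1) ν a1 b1 +
        (X - C t) ^ (d + 1) * (a1 * w)) = 0 := by linear_combination k1
    have k3 := congrArg (eval t) ((mul_eq_zero.1 k2).resolve_left (pow_ne_zero _ hy))
    simp only [eval_add, eval_mul, eval_pow, eval_sub, eval_X, eval_C, sub_self, eval_zero,
      zero_pow (Nat.succ_ne_zero d), zero_mul, add_zero] at k3
    exact mul_ne_zero hq (zz_ne h hμ hν l.ne ha h1) k3
  · subst l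
    have k2 : (X - C t) ^ ν * (q * zz t ν ν a1 b1 + a1 * w) = 0 := by linear_combination k1
    have k3 := congrArg (eval t) ((mul_eq_zero.1 k2).resolve_left (pow_ne_zero _ hy))
    simp only [eval_add, eval_mul, zz_eval, sub_self, eval_zero, zero_mul, mul_zero,
      zero_add] at k3
    exact mul_ne_zero ha hw k3
  · obtain ⟨d, rfl⟩ := Nat.exists_eq_add_of_lt l
    have k2 : (X - C t) ^ μ * (q * (X - C t) ^ (d + 1) * zz t μ (μ + d + 1) a1 b1 +
        a1 * w) = 0 := by linear_combination k1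
    have k3 := congrArg (eval t) ((mul_eq_zero.1 k2).resolve_left (pow_ne_zero _ hy))
    simp only [eval_add, eval_mul, eval_pow, eval_sub, eval_X, eval_C, sub_self, eval_zero,
      zero_pow (Nat.succ_ne_zero d), zero_mul, mul_zero, zero_add] at k3
    exact mul_ne_zero ha hw k3

end Pool.Agent.MP_0c16b3_nt.W
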