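import Pool.Agent.MP_0c16b3_nt.W.Spec

/-! From the patterns to the count of windows. -/

namespace Pool.Agent.MP_0c16b3_nt.W

namespace Main

theorem unif (hP : PatS) (L T : ℕ) (hT : 0 < T) : ∃ M p0 : ℕ, ∀ a b c : ℕ, 0 < a → a < b → b < c →
    c ≤ L → ∀ p : ℕ, p.Prime → p0 ≤ p → ∀ G : Finset ℕ,
    (∀ k ∈ G, k + c < p ∧ num p (k + a) ≡ num p k [ZMOD (p : ℤ) ^ 3] ∧
      num p (k + b) ≡ num p k [ZMOD (p : ℤ) ^ 3] ∧ num p (k + c) ≡ num p k [ZMOD (p : ℤ) ^ 3]) →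
    T * G.card ≤ T * M + (L + 1) * p := by
  have h : ∀ t : Fin (L + 1) × Fin (L + 1) × Fin (L + 1), ∃ M p0 : ℕ, 0 < (t.1 : ℕ) →
      (t.1 : ℕ) < t.2.1 → (t.2.1 : ℕ) < t.2.2 → ∀ p : ℕ, p.Prime → p0 ≤ p → ∀ G : Finset ℕ,
      (∀ k ∈ G, k + t.2.2 < p ∧ num p (k + t.1) ≡ num p k [ZMOD (p : ℤ) ^ 3] ∧
        num p (k + t.2.1) ≡ num p k [ZMOD (p : ℤ) ^ 3] ∧
        num p (k + t.2.2) ≡ num p k [ZMOD (p : ℤ) ^ 3]) →
      T * G.card ≤ T * M + (t.2.2 + 1) * p := by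
    intro t
    by_cases h : 0 < (t.1 : ℕ) ∧ (t.1 : ℕ) < t.2.1 ∧ (t.2.1 : ℕ) < t.2.2
    · obtain ⟨M, p0, hM⟩ := hP _ _ _ T h.1 h.2.1 h.2.2 hT
      exact ⟨M, p0, fun _ _ _ => hM⟩
    · exact ⟨0, 0, fun h1 h2 h3 => absurd ⟨h1, h2, h3⟩ h⟩
  choose M p0 hM using h
  refine ⟨∑ t, M t, ∑ t, p0 t, ?_⟩
  intro a b c ha hab hbc hc p hp hp0 G hG
  obtain ⟨t, h1, h2, h3⟩ : ∃ t : Fin (L + 1) × Fin (L + 1) × Fin (L + 1),
      (t.1 : ℕ) = a ∧ (t.2.1 : ℕ) = b ∧ (t.2.2 : ℕ) = c :=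
    ⟨(⟨a, by omega⟩, ⟨b, by omega⟩, ⟨c, by omega⟩), rfl, rfl, rfl⟩
  subst h1 h2 h3
  have k1 := Finset.single_le_sum (f := M) (fun _ _ => Nat.zero_le _) (Finset.mem_univ t)
  have k2 := Finset.single_le_sum (f := p0) (fun _ _ => Nat.zero_le _) (Finset.mem_univ t)
  have k3 := hM t ha hab hbc p hp (k2.trans hp0) G hG
  exact k3.trans (add_le_add (Nat.mul_le_mul_left _ k1) (Nat.mul_le_mul_right _ (by omega)))

end Main

theorem main (hC : CountS) (hP : PatS) (ε : ℝ) (hε : 0 < ε) : ∃ p₀ : ℕ, ∀ p : ℕ, p.Prime →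
    p₀ ≤ p → ∀ r : ℤ,
    (((Finset.range p).filter (fun k : ℕ => num p k ≡ r [ZMOD (p : ℤ) ^ 3])).card : ℝ) ≤ ε * p := by
  obtain ⟨L, hL⟩ := exists_nat_gt (9 / ε)
  have hL0 : (0 : ℝ) < L := lt_trans (by positivity) hL
  obtain ⟨T, hT⟩ := exists_nat_gt (3 * (L ^ 3 * (L + 1)) / ε)
  have hT0 : (0 : ℝ) < T := lt_trans (by positivity) hT
  obtain ⟨M, p0, hM⟩ := Main.unif hP L T (by exact_mod_cast hT0)
  obtain ⟨N, hN⟩ := exists_nat_gt (3 * ((L : ℝ) ^ 3 * M + 3) / ε)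
  refine ⟨p0 + N, fun p hp hp0 r => ?_⟩
  obtain ⟨A, hA⟩ : ∃ A : Finset ℕ,
      A = (Finset.range p).filter (fun k : ℕ => num p k ≡ r [ZMOD (p : ℤ) ^ 3]) := ⟨_, rfl⟩
  rw [← hA]
  have hmem : ∀ k ∈ A, k < p ∧ num p k ≡ r [ZMOD (p : ℤ) ^ 3] := by
    intro k hk
    rw [hA, Finset.mem_filter, Finset.mem_range] at hk
    exact hk
  have h1 := hC p L (M + (L + 1) * p / T) A (by exact_mod_cast hL0)
    (fun k hk => Finset.mem_range.2 (hmem k hk).1) ?_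
  · have h2 : (A.card : ℝ) ≤ (L : ℝ) ^ 3 * (M + (((L + 1) * p / T : ℕ) : ℝ)) +
        3 * (((p / L : ℕ) : ℝ) + 1) := by exact_mod_cast h1
    have h3 : (((L + 1) * p / T : ℕ) : ℝ) ≤ ((L : ℝ) + 1) * p / T := by
      have := @Nat.cast_div_le ℝ _ _ _ ((L + 1) * p) T
      push_cast at this
      exact this
    have h4 : ((p / L : ℕ) : ℝ) ≤ (p : ℝ) / L := Nat.cast_div_le
    have hp' : (0 : ℝ) ≤ p := Nat.cast_nonneg p
    have hNp : (N : ℝ) ≤ p := by exact_mod_cast (by omega : N ≤ p)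
    have k1 : (L : ℝ) ^ 3 * M + 3 ≤ ε / 3 * p := by
      rw [div_lt_iff₀ hε] at hN
      nlinarith
    have k2 : (L : ℝ) ^ 3 * (((L : ℝ) + 1) * p / T) ≤ ε / 3 * p := by
      rw [div_lt_iff₀ hε] at hT
      rw [← mul_div_assoc, div_le_iff₀ hT0]
      nlinarith
    have k3 : 3 * ((p : ℝ) / L) ≤ ε / 3 * p := by
      rw [div_lt_iff₀ hε] at hL
      rw [← mul_div_assoc, div_le_iff₀ hL0]
      nlinarith
    have k4 : (L : ℝ) ^ 3 * (((L + 1) * p / T : ℕ) : ℝ) ≤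
        (L : ℝ) ^ 3 * (((L : ℝ) + 1) * p / T) := mul_le_mul_of_nonneg_left h3 (by positivity)
    nlinarith
  · intro a b c ha hab hbc hc
    have hT1 : 0 < T := by exact_mod_cast hT0
    have h5 := hM a b c ha hab hbc hc p hp (by omega)
      (A.filter (fun k => k + a ∈ A ∧ k + b ∈ A ∧ k + c ∈ A)) (by
        intro k hk
        obtain ⟨h0, h1, h2, h3⟩ := Finset.mem_filter.1 hk
        have h4 := (hmem k h0).2.symm
        exact ⟨(hmem _ h3).1, (hmem _ h1).2.trans h4, (hmem _ h2).2.trans h4,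
          (hmem _ h3).2.trans h4⟩)
    rw [add_comm, ← Nat.add_mul_div_left _ _ hT1, Nat.le_div_iff_mul_le hT1]
    linarith

end Pool.Agent.MP_0c16b3_nt.W
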