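import Pool.Agent.MP_0c16b3_nt.W.Spec

/-! Zeros of the iterated derivations give zeros of high order. -/

namespace Pool.Agent.MP_0c16b3_nt.W

open Polynomial

namespace Mult

theorem ne {p : ℕ} [Fact p.Prime] (Q : (ZMod p)[X]) (x : ZMod p) (hQ : Q.eval x ≠ 0) :
    ∀ (m : ℕ) (G : (ZMod p)[X]), m < p → G.eval x ≠ 0 →
      ((fun f => Q * derivative f)^[m] ((X - C x) ^ m * G)).eval x ≠ 0 := by
  intro m
  induction m with
  | zero => intro G _ h; simpa using h
  | succ m ih =>
    intro G hm h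
    have e : Q * derivative ((X - C x) ^ (m + 1) * G) =
        (X - C x) ^ m * (Q * (C ((m + 1 : ℕ) : ZMod p) * G + (X - C x) * derivative G)) := by
      rw [derivative_mul, derivative_X_sub_C_pow, Nat.add_sub_cancel]
      ring
    have h0 : ((m + 1 : ℕ) : ZMod p) ≠ 0 := fun h0 =>
      absurd (Nat.le_of_dvd m.succ_pos ((ZMod.natCast_eq_zero_iff _ _).1 h0)) (by omega)
    rw [Function.iterate_succ_apply, e]
    refine ih _ (by omega) ?_
    simp only [eval_mul, eval_add, eval_C, eval_sub, eval_X, sub_self, zero_mul, add_zero]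
    exact mul_ne_zero hQ (mul_ne_zero h0 h)

end Mult

theorem mult : MultS := by
  intro p _ Q Ψ S D hD hΨ hQ h
  have h1 : ∀ x ∈ S, D ≤ Ψ.roots.count x := fun x hx => by
    rw [count_roots]
    by_contra hc
    obtain ⟨G, e, hG⟩ := exists_eq_pow_rootMultiplicity_mul_and_not_dvd Ψ hΨ x
    have h2 := Mult.ne Q x (hQ x hx) (rootMultiplicity x Ψ) G (by omega)
      fun h0 => hG (dvd_iff_isRoot.2 h0)
    rw [← e] at h2
    exact h2 (h _ (by omega) x hx)
  calc S.card * D ≤ ∑ x ∈ S, Ψ.roots.count x := by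
        simpa using Finset.card_nsmul_le_sum S _ D h1
    _ ≤ ∑ x, Ψ.roots.count x := Finset.sum_le_sum_of_subset (Finset.subset_univ _)
    _ = Ψ.roots.card := Multiset.sum_count_eq_card fun _ _ => Finset.mem_univ _
    _ ≤ Ψ.natDegree := card_roots' Ψ

end Pool.Agent.MP_0c16b3_nt.W
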