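import Pool.Agent.MP_0c16b3_nt.W.Spec

/-! One pattern of four windows with the same numerator occurs rarely. -/

namespace Pool.Agent.MP_0c16b3_nt.W

open Polynomial

namespace Pat

theorem map_ne (f : ℤ[X]) (hf : f ≠ 0) (p : ℕ) (hp : f.leadingCoeff.natAbs < p) :
    f.map (Int.castRingHom (ZMod p)) ≠ 0 := by
  intro h
  have h1 := congrArg (fun g => g.coeff f.natDegree) h
  simp only [coeff_map, coeff_zero, eq_intCast, coeff_natDegree] at h1
  have h2 := (ZMod.intCast_zmod_eq_zero_iff_dvd _ _).1 h1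
  have h3 : f.leadingCoeff ≠ 0 := leadingCoeff_ne_zero.2 hf
  have h4 := Nat.le_of_dvd (Int.natAbs_pos.2 h3) (Int.natCast_dvd.1 h2)
  omega

theorem eval_map' (f : ℤ[X]) (p : ℕ) (x : ZMod p) :
    (f.map (Int.castRingHom (ZMod p))).eval x = aeval x f := by
  rw [aeval_def, eval_map]
  rfl

theorem cast_ne (p : ℕ) {i : ℕ} (h0 : i ≠ 0) (hi : i < p) : (i : ZMod p) ≠ 0 := by
  intro h
  have := Nat.le_of_dvd (Nat.pos_of_ne_zero h0) ((ZMod.natCast_eq_zero_iff i p).1 h)
  omega

end Pat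

open Pat in
theorem pat (hR : RecS) (hP : PolyS) (hE : ElimS) (hS : StepS) (hF : FamS) : PatS := by
  intro a b c T ha hab hbc hT
  obtain ⟨n, rfl⟩ : ∃ n, c = n + 1 := ⟨c - 1, by omega⟩
  obtain ⟨R0, R, hRn, hel⟩ := hE a b n ha hab hbc
  obtain ⟨d, hd0, hd⟩ : ∃ d : ℕ, R0.natDegree ≤ d ∧ ∀ i, i < n + 1 → (R i).natDegree ≤ d := by
    refine ⟨R0.natDegree + ∑ i ∈ Finset.range (n + 1), (R i).natDegree, by omega, fun i hi => ?_⟩
    have := Finset.single_le_sum (f := fun i => (R i).natDegree) (fun _ _ => Nat.zero_le _)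
      (Finset.mem_range.2 hi)
    omega
  obtain ⟨A, B, D, hst⟩ := hS n d T hT
  obtain ⟨p1, hfam⟩ := hF (n + 1) A B
  refine ⟨A + d + 1, D + p1 + 3 + (R n).leadingCoeff.natAbs + 1, ?_⟩
  intro p hp hp0 G hG
  have : Fact p.Prime := ⟨hp⟩
  obtain ⟨φ, ω, hφ, hω, hrec⟩ := hR p hp (by omega)
  choose F hF1 hF2 hF3 using hP p hp
  have hIs : IsF p (n + 1) (fun i : Fin (n + 1) => F i) := fun i => ⟨hF1 i, hF2 i⟩
  obtain ⟨f, hf⟩ : ∃ f : (ZMod p)[X], f = (R n).map (Int.castRingHom (ZMod p)) := ⟨_, rfl⟩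
  have hf0 : f ≠ 0 := hf ▸ map_ne _ hRn p (by omega)
  have hfd : f.natDegree ≤ d := hf ▸ natDegree_map_le.trans (hd n (by omega))
  have hinj : Set.InjOn (fun k : ℕ => (k : ZMod p)) G := by
    intro j hj k hk h
    have h1 := (hG j hj).1
    have h2 := (hG k hk).1
    exact Nat.ModEq.eq_of_lt_of_lt ((ZMod.natCast_eq_natCast_iff _ _ _).1 h) (by omega) (by omega)
  obtain ⟨S, hSdef⟩ : ∃ S : Finset (ZMod p),
      S = (G.image (fun k : ℕ => (k : ZMod p))).filter (fun x => f.eval x ≠ 0 ∧ x ≠ 0) := ⟨_, rfl⟩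
  have hmem : ∀ x ∈ S, ∃ k ∈ G, (k : ZMod p) = x ∧ f.eval x ≠ 0 ∧ x ≠ 0 := by
    intro x hx
    rw [hSdef, Finset.mem_filter, Finset.mem_image] at hx
    obtain ⟨⟨k, hk, hkx⟩, h⟩ := hx
    exact ⟨k, hk, hkx, h⟩
  have hcard : G.card ≤ S.card + (d + 1) := by
    rw [← Finset.card_image_of_injOn hinj]
    have h1 : G.image (fun k : ℕ => (k : ZMod p)) ⊆ S ∪ insert 0 f.roots.toFinset := by
      intro x hx
      rw [Finset.mem_union, hSdef, Finset.mem_filter, Finset.mem_insert, Multiset.mem_toFinset,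
        mem_roots hf0, IsRoot.def]
      by_cases h1 : f.eval x = 0
      · exact Or.inr (Or.inr h1)
      by_cases h2 : x = 0
      · exact Or.inr (Or.inl h2)
      exact Or.inl ⟨hx, h1, h2⟩
    have h2 := (Finset.card_le_card h1).trans (Finset.card_union_le _ _)
    have h3 := Finset.card_insert_le (0 : ZMod p) f.roots.toFinset
    have h4 := (Multiset.toFinset_card_le f.roots).trans (card_roots' f)
    omega
  have hlin : ∀ k ∈ G, ∀ i : ℕ, i ≤ n → (k : ZMod p) + ((i + 1 : ℕ) : ZMod p) ≠ 0 := by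
    intro k hk i hi
    have h1 := (hG k hk).1
    rw [← Nat.cast_add]
    exact cast_ne p (by omega) (by omega)
  have hmain := hst p (by omega) _ hIs (hfam p (by omega) _ hIs)
    (fun i : Fin (n + 1) => (R i).map (Int.castRingHom (ZMod p)))
    (R0.map (Int.castRingHom (ZMod p))) S
    (fun i => natDegree_map_le.trans (hd i i.2)) (natDegree_map_le.trans hd0) ?_ ?_ ?_
  · have h1 := Nat.mul_le_mul_left T hcard
    calc T * G.card ≤ T * (S.card + (d + 1)) := h1
      _ = T * S.card + T * (d + 1) := by ring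
      _ ≤ T * A + (n + 2) * p + T * (d + 1) := by omega
      _ = T * (A + d + 1) + (n + 1 + 1) * p := by ring
  · intro x hx
    obtain ⟨k, hk, rfl, -, -⟩ := hmem x hx
    obtain ⟨h1, h2, h3, h4⟩ := hG k hk
    have h5 := hel (ZMod p) (k : ZMod p) (fun i => φ (k + i)) (fun i => ω (k + i))
      (fun i => fq p (k + i)) (hlin k hk) ?_ ?_ (hφ _ _ (by omega) (by omega) h2)
      (hφ _ _ (by omega) (by omega) h3) (hφ _ _ (by omega) (by omega) h4)
    · rw [eval_map', ← h5, ← Fin.sum_univ_eq_sum_range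
        (fun i => aeval (k : ZMod p) (R i) * (fq p (k + (i + 1)) - fq p (k + 0))) (n + 1)]
      refine Finset.sum_congr rfl (fun i _ => ?_)
      rw [eval_map', hF3]
      rfl
    · intro i hi
      have h6 := hω (k + i) (by omega)
      rw [← h6]
      push_cast
      rw [add_assoc, add_assoc]
    · intro i hi
      have h6 := hrec (k + i) (by omega)
      push_cast at h6 ⊢
      rw [add_assoc, add_assoc] at h6
      exact h6
  · intro x hx
    obtain ⟨k, -, -, h, -⟩ := hmem x hx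
    rw [hf] at h
    exact h
  · intro x hx
    obtain ⟨k, hk, rfl, -, h⟩ := hmem x hx
    rw [qq, eval_mul, eval_X, eval_prod]
    refine mul_ne_zero h (Finset.prod_ne_zero_iff.2 (fun i _ => ?_))
    rw [lin, eval_add, eval_X, eval_C]
    exact hlin k hk i (by have := i.2; omega)

end Pool.Agent.MP_0c16b3_nt.W
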