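import Pool.Agent.MP_0c16b3_nt.W.Spec

/-! The difference polynomials of the Fermat quotient, and the base case of the independence. -/

namespace Pool.Agent.MP_0c16b3_nt.W

open Polynomial

namespace Poly

theorem frob (p : ℕ) [Fact p.Prime] (j : ℕ) :
    (X + C (j : ZMod p)) ^ p = X ^ p + C (j : ZMod p) := by
  rw [add_pow_char, ← C_pow, ZMod.pow_card]

theorem exH (p : ℕ) (hp : p.Prime) (j : ℕ) :
    ∃ H : ℤ[X], (X + C (j : ℤ)) ^ p - X ^ p - C (j : ℤ) = C (p : ℤ) * H := by
  have := Fact.mk hp
  change C (p : ℤ) ∣ _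
  rw [C_dvd_iff_dvd_coeff]
  intro n
  rw [← ZMod.intCast_zmod_eq_zero_iff_dvd]
  have e : ((X + C (j : ℤ)) ^ p - X ^ p - C (j : ℤ)).map (Int.castRingHom (ZMod p)) = 0 := by
    simp only [Polynomial.map_sub, Polynomial.map_pow, Polynomial.map_add, map_X,
      map_natCast, Polynomial.map_natCast]
    have := frob p j
    simp only [map_natCast] at this
    rw [this]
    ring
  have := congrArg (fun f => f.coeff n) e
  simpa only [coeff_map, coeff_zero, eq_intCast] using this

theorem dvd_fq (p : ℕ) (hp : p.Prime) (m : ℕ) : (p : ℤ) ∣ (m : ℤ) ^ p - m := by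
  have := Fact.mk hp
  rw [← ZMod.intCast_zmod_eq_zero_iff_dvd]
  push_cast
  rw [ZMod.pow_card, sub_self]

end Poly

open W.Poly in
theorem poly : PolyS := by
  intro p hp i
  have := Fact.mk hp
  obtain ⟨H, hH⟩ := exH p hp (i + 1)
  have p0 : (p : ℤ) ≠ 0 := Int.natCast_ne_zero.2 hp.ne_zero
  refine ⟨H.map (Int.castRingHom (ZMod p)), natDegree_map_le.trans ?_, ?_, fun k => ?_⟩
  · rw [← natDegree_C_mul p0 (p := H), ← hH]
    refine (natDegree_sub_le _ _).trans (max_le ((natDegree_sub_le _ _).trans (max_le ?_ ?_)) ?_)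
    · refine natDegree_pow_le.trans ?_
      rw [natDegree_X_add_C, mul_one]
    · exact natDegree_X_pow_le p
    · rw [natDegree_C]
      exact Nat.zero_le _
  · have e : derivative H = (X + C ((i + 1 : ℕ) : ℤ)) ^ (p - 1) - X ^ (p - 1) := by
      have := congrArg derivative hH
      rw [derivative_C_mul, derivative_sub, derivative_sub, derivative_C, derivative_X_pow,
        derivative_X_add_C_pow] at this
      refine mul_left_cancel₀ (C_ne_zero.2 p0) ?_
      rw [← this]
      ring
    have e2 : derivative (H.map (Int.castRingHom (ZMod p))) =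
        (X + C ((i + 1 : ℕ) : ZMod p)) ^ (p - 1) - X ^ (p - 1) := by
      rw [derivative_map, e]
      simp only [Polynomial.map_sub, Polynomial.map_pow, Polynomial.map_add, map_X,
        map_natCast, Polynomial.map_natCast]
    have e3 := frob p (i + 1)
    have e4 : ∀ f : (ZMod p)[X], f ^ p = f * f ^ (p - 1) := fun f => by
      rw [← pow_succ', Nat.sub_add_cancel hp.one_lt.le]
    rw [e2, lin]
    rw [e4] at e3
    rw [e4 X] at e3 ⊢
    linear_combination X * e3
  · obtain ⟨a, ha⟩ := dvd_fq p hp (k + (i + 1))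
    obtain ⟨b, hb⟩ := dvd_fq p hp k
    have e : H.eval (k : ℤ) = a - b := by
      have := congrArg (eval (k : ℤ)) hH
      simp only [eval_sub, eval_pow, eval_add, eval_X, eval_C, eval_mul] at this
      refine mul_left_cancel₀ p0 ?_
      rw [← this, mul_sub, ← ha, ← hb]
      push_cast
      ring
    rw [fq, fq, ha, hb, Int.mul_ediv_cancel_left _ p0, Int.mul_ediv_cancel_left _ p0,
      ← Int.cast_sub, ← e, ← Int.cast_natCast (R := ZMod p) k, eval_intCast_map]
    rfl

theorem base : BaseS := by
  intro p hp g hg h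
  have p0 : 0 < p := hp.out.pos
  ext j b
  by_cases hj : j < p
  · have e := congrArg (fun f => f.coeff (b * p + j)) h
    simp only [evR, coe_eval₂RingHom, eval₂_eq_sum_range' _ hg, finsetSum_coeff, coeff_zero,
      coeff_mul_X_pow'] at e
    rw [Finset.sum_eq_single j] at e
    · rw [if_pos (Nat.le_add_left _ _), Nat.add_sub_cancel] at e
      simpa [coeff_expand_mul p0] using e
    · intro i hi hij
      split_ifs with hl
      · have hi := Finset.mem_range.1 hi
        have : ¬p ∣ b * p + j - i := fun ⟨c, hc⟩ => by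
          have e1 : b * p + j = p * c + i := by omega
          have e2 := congrArg (· % p) e1
          simp only [Nat.mul_add_mod, Nat.mul_comm b p, Nat.mod_eq_of_lt hj,
            Nat.mod_eq_of_lt hi] at e2
          exact hij e2.symm
        simp [coeff_expand p0, this]
      · rfl
    · intro k
      exact absurd (Finset.mem_range.2 hj) k
  · rw [coeff_eq_zero_of_natDegree_lt (p := g) (by omega)]
    simp

end Pool.Agent.MP_0c16b3_nt.W
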