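import Pool.Agent.MP_0c16b3_nt.W.Spec

/-! The recurrences of the Lerch numerators of consecutive windows. -/

namespace Pool.Agent.MP_0c16b3_nt.W

open Polynomial

namespace Rec

theorem binom (m q : ℤ) (n : ℕ) : ∃ c t : ℤ, 2 * t = n * (n - 1) ∧
    (m - q) ^ n * m ^ 2 = m ^ n * (m ^ 2 - n * q * m + t * q ^ 2) + q ^ 3 * c := by
  induction n with
  | zero => exact ⟨0, 0, by simp, by simp⟩
  | succ n ih =>
    obtain ⟨c, t, h1, h2⟩ := ih
    refine ⟨c * (m - q) - t * m ^ n, t + n, by push_cast; linear_combination h1, ?_⟩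
    push_cast
    rw [pow_succ (m - q) n, pow_succ m n]
    linear_combination (m - q) * h2

theorem win_succ (p k : ℕ) (hk : k + 1 < p) :
    win p (k + 1) = insert (-((k : ℤ) + 1)) ((win p k).erase ((p : ℤ) - (k + 1))) := by
  ext a
  simp only [win, Finset.mem_insert, Finset.mem_erase, Finset.mem_Icc]
  push_cast
  omega

theorem top_mem (p k : ℕ) (hk : k + 1 < p) : (p : ℤ) - (k + 1) ∈ win p k := by
  simp only [win, Finset.mem_erase, Finset.mem_Icc]
  omega

theorem bot_not (p k : ℕ) : -((k : ℤ) + 1) ∉ (win p k).erase ((p : ℤ) - (k + 1)) := by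
  simp only [win, Finset.mem_erase, Finset.mem_Icc]
  omega

/-- The product of the window. -/
noncomputable def pr (p k : ℕ) : ℤ := ∏ a ∈ win p k, a

theorem pr_succ (p k : ℕ) (hk : k + 1 < p) :
    ((k : ℤ) + 1) * (pr p (k + 1) - pr p k) = p * pr p (k + 1) := by
  have a : pr p (k + 1) = -((k : ℤ) + 1) * ∏ a ∈ (win p k).erase ((p : ℤ) - (k + 1)), a := by
    rw [pr, win_succ p k hk, Finset.prod_insert (bot_not p k)]
  have b : pr p k = ((p : ℤ) - (k + 1)) * ∏ a ∈ (win p k).erase ((p : ℤ) - (k + 1)), a :=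
    (Finset.mul_prod_erase (win p k) (fun a => a) (top_mem p k hk)).symm
  rw [a, b]; ring

theorem sum_succ (p k n : ℕ) (hk : k + 1 < p) (hn : Even n) :
    ∑ a ∈ win p (k + 1), a ^ n - ∑ a ∈ win p k, a ^ n =
      ((k : ℤ) + 1) ^ n - (((k : ℤ) + 1) - p) ^ n := by
  rw [win_succ p k hk, Finset.sum_insert (bot_not p k),
    ← Finset.add_sum_erase (win p k) (fun a => a ^ n) (top_mem p k hk), hn.neg_pow,
    ← neg_sub (p : ℤ), hn.neg_pow]
  ring

theorem cop {p : ℕ} (hp : p.Prime) (k : ℕ) (hk : k + 1 < p) : IsCoprime (p : ℤ) ((k : ℤ) + 1) := by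
  have := Nat.isCoprime_iff_coprime.2 (Nat.coprime_of_lt_prime (Nat.succ_ne_zero k) hk hp)
  exact_mod_cast this

theorem wilson {p : ℕ} (hp : p.Prime) : (p : ℤ) ∣ pr p 0 + 1 := by
  have := Fact.mk hp
  have e : win p 0 = (Finset.Ico 1 p).map Nat.castEmbedding := by
    ext a
    simp only [win, Finset.mem_erase, Finset.mem_Icc, Finset.mem_map, Finset.mem_Ico,
      Nat.castEmbedding_apply]
    constructor
    · intro h
      exact ⟨a.toNat, by omega, by omega⟩
    · rintro ⟨n, h, rfl⟩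
      omega
  rw [← ZMod.intCast_zmod_eq_zero_iff_dvd, pr, e, Finset.prod_map]
  push_cast
  simp only [Nat.castEmbedding_apply, Int.cast_natCast]
  rw [ZMod.prod_Ico_one_prime]
  ring

theorem dvd_pr {p : ℕ} (hp : p.Prime) : ∀ k : ℕ, k < p → (p : ℤ) ∣ pr p k + 1 := by
  intro k
  induction k with
  | zero => exact fun _ => wilson hp
  | succ k ih =>
    intro hk
    have h1 : (p : ℤ) ∣ pr p (k + 1) - pr p k :=
      (cop hp k hk).dvd_of_dvd_mul_left ⟨_, pr_succ p k hk⟩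
    have := dvd_add h1 (ih (by omega))
    have e : pr p (k + 1) - pr p k + (pr p k + 1) = pr p (k + 1) + 1 := by ring
    rwa [e] at this

/-- The Wilson quotient of the window. -/
noncomputable def om (p k : ℕ) : ℤ := (pr p k + 1) / p

theorem om_eq {p : ℕ} (hp : p.Prime) (k : ℕ) (hk : k < p) : pr p k = p * om p k - 1 := by
  have := Int.mul_ediv_cancel' (dvd_pr hp k hk)
  rw [om, this]; ring

theorem om_succ {p : ℕ} (hp : p.Prime) (k : ℕ) (hk : k + 1 < p) :
    ((k : ℤ) + 1) * (om p (k + 1) - om p k) = -1 + p * om p (k + 1) := by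
  have h0 : (p : ℤ) ≠ 0 := by exact_mod_cast hp.ne_zero
  have h := pr_succ p k hk
  rw [om_eq hp (k + 1) hk, om_eq hp k (by omega)] at h
  apply mul_left_cancel₀ h0
  linear_combination h

theorem fermat {p : ℕ} (hp : p.Prime) (m : ℤ) : (p : ℤ) ∣ m ^ p - m := by
  have := Fact.mk hp
  rw [← ZMod.intCast_zmod_eq_zero_iff_dvd]
  push_cast
  rw [ZMod.pow_card, sub_self]

theorem num_succ {p : ℕ} (hp : p.Prime) (h3 : 3 ≤ p) (k : ℕ) (hk : k + 1 < p) : ∃ c : ℤ,
    ((k : ℤ) + 1) ^ 2 * (num p (k + 1) - num p k) =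
      (p : ℤ) ^ 2 * (((k : ℤ) + 1) - (((k : ℤ) + 1) ^ p - (k + 1)) / p - 1 -
        ((k : ℤ) + 1) * om p (k + 1) + p * c) := by
  obtain ⟨j, hj⟩ : ∃ j : ℕ, p = 2 * j + 3 := by
    have := hp.eq_two_or_odd
    exact ⟨(p - 3) / 2, by omega⟩
  have hev : Even (p - 1) := ⟨j + 1, by omega⟩
  set m : ℤ := (k : ℤ) + 1 with hm
  obtain ⟨c, t, h1, h2⟩ := binom m p (p - 1)
  have hn : ((p - 1 : ℕ) : ℤ) = (p : ℤ) - 1 := by
    rw [Nat.cast_sub hp.one_le]; simp
  have hpj : (p : ℤ) = 2 * j + 3 := by exact_mod_cast hj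
  have ht : t = 1 + p * j := by
    rw [hn] at h1
    have : 2 * t = 2 * (1 + p * j) := by rw [h1]; linear_combination (p : ℤ) * hpj
    omega
  have hs := Int.mul_ediv_cancel' (fermat hp m)
  set s : ℤ := (m ^ p - m) / p with hsd
  have hpow : m ^ p = m ^ (p - 1) * m := by
    rw [← pow_succ]; congr 1; omega
  have hu : (p : ℤ) ∣ m ^ (p - 1) - 1 := by
    refine (cop hp k hk).dvd_of_dvd_mul_left ⟨s, ?_⟩
    rw [hs, hpow]; ring
  obtain ⟨u, hu⟩ := hu
  have hS := sum_succ p k (p - 1) hk hev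
  have hP := pr_succ p k hk
  have hO := om_eq hp (k + 1) hk
  have hN : num p (k + 1) - num p k = m ^ (p - 1) - (m - p) ^ (p - 1) -
      (pr p (k + 1) - pr p k) := by
    rw [hm, ← hS]; simp only [num, pr]; ring
  rw [hn, ht] at h2
  rw [← hm] at hP
  rw [hpow] at hs
  refine ⟨s - u - j * m ^ (p - 1) - c, ?_⟩
  rw [hN]
  linear_combination (-1) * h2 - m * hP - m * p * hO - (p : ℤ) * (p - 1) * hs - (p : ℤ) ^ 2 * hu

theorem dvd_num {p : ℕ} (hp : p.Prime) (h3 : 3 ≤ p) :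
    ∀ k : ℕ, k < p → (p : ℤ) ^ 2 ∣ num p k - num p 0 := by
  intro k
  induction k with
  | zero => simp
  | succ k ih =>
    intro hk
    obtain ⟨c, hc⟩ := num_succ hp h3 k hk
    have h1 : (p : ℤ) ^ 2 ∣ num p (k + 1) - num p k :=
      (IsCoprime.pow (m := 2) (n := 2) (cop hp k hk)).dvd_of_dvd_mul_left ⟨_, hc⟩
    have := dvd_add h1 (ih (by omega))
    rwa [sub_add_sub_cancel] at this

/-- The normalised numerator. -/
noncomputable def ph (p k : ℕ) : ℤ := (num p k - num p 0) / (p : ℤ) ^ 2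

theorem ph_eq {p : ℕ} (hp : p.Prime) (h3 : 3 ≤ p) (k : ℕ) (hk : k < p) :
    (p : ℤ) ^ 2 * ph p k = num p k - num p 0 := Int.mul_ediv_cancel' (dvd_num hp h3 k hk)

end Rec

theorem recS : RecS := by
  intro p hp h3
  have h0 : (p : ℤ) ^ 2 ≠ 0 := pow_ne_zero _ (by exact_mod_cast hp.ne_zero)
  have hw : ∀ k : ℕ, k + 1 < p → ((k : ZMod p) + 1) *
      (((Rec.om p (k + 1) : ℤ) : ZMod p) - ((Rec.om p k : ℤ) : ZMod p)) = -1 := by
    intro k hk
    have := congrArg (Int.cast : ℤ → ZMod p) (Rec.om_succ hp k hk)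
    simpa using this
  refine ⟨fun k => (Rec.ph p k : ℤ), fun k => (Rec.om p k : ℤ), ?_, hw, ?_⟩
  · intro j k hj hk h
    obtain ⟨c, hc⟩ := h.dvd
    have e : Rec.ph p k - Rec.ph p j = p * c := by
      apply mul_left_cancel₀ h0
      linear_combination Rec.ph_eq hp h3 k hk - Rec.ph_eq hp h3 j hj + hc
    have := congrArg (Int.cast : ℤ → ZMod p) e
    simp only [Int.cast_sub, Int.cast_mul, Int.cast_natCast, ZMod.natCast_self, zero_mul] at this
    exact (sub_eq_zero.1 this).symm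
  · intro k hk
    obtain ⟨c, hc⟩ := Rec.num_succ hp h3 k hk
    have e : ((k : ℤ) + 1) ^ 2 * (Rec.ph p (k + 1) - Rec.ph p k) =
        ((k : ℤ) + 1) - (((k : ℤ) + 1) ^ p - (k + 1)) / p - 1 -
          ((k : ℤ) + 1) * Rec.om p (k + 1) + p * c := by
      apply mul_left_cancel₀ h0
      linear_combination hc + ((k : ℤ) + 1) ^ 2 * Rec.ph_eq hp h3 (k + 1) hk -
        ((k : ℤ) + 1) ^ 2 * Rec.ph_eq hp h3 k (by omega)
    have hf : fq p (k + 1) = (((((k : ℤ) + 1) ^ p - (k + 1)) / p : ℤ) : ZMod p) := by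
      simp only [fq, Nat.cast_add, Nat.cast_one]
    have := congrArg (Int.cast : ℤ → ZMod p) e
    simp only [Int.cast_sub, Int.cast_mul, Int.cast_add, Int.cast_pow, Int.cast_one,
      Int.cast_natCast, ZMod.natCast_self, zero_mul] at this
    rw [hf]
    linear_combination this - hw k hk

end Pool.Agent.MP_0c16b3_nt.W
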