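import Mathlib

/-! Windows of residues and the Lerch numerator: definitions and the statements of the steps. -/

namespace Pool.Agent.MP_0c16b3_nt.W

open Polynomial

/-- The window `[-k, p - 1 - k]` without `0`. -/
noncomputable def win (p k : ℕ) : Finset ℤ := (Finset.Icc (-(k : ℤ)) ((p : ℤ) - 1 - k)).erase 0

/-- The Lerch numerator of the window. -/
noncomputable def num (p k : ℕ) : ℤ := (∑ a ∈ win p k, a ^ (p - 1)) - p - ∏ a ∈ win p k, a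

/-- `(m ^ p - m) / p` modulo `p`. -/
def fq (p m : ℕ) : ZMod p := ((((m : ℤ) ^ p - m) / p : ℤ) : ZMod p)

/-- `X + (i + 1)`. -/
noncomputable def lin (A : Type) [CommRing A] (i : ℕ) : A[X] := X + C ((i + 1 : ℕ) : A)

/-- `X (X + 1) ⋯ (X + c)`. -/
noncomputable def qq (A : Type) [CommRing A] (c : ℕ) : A[X] := X * ∏ i : Fin c, lin A i

/-- `qq` without the factors `X` and `X + (i + 1)`. -/
noncomputable def qi (A : Type) [CommRing A] (c : ℕ) (i : Fin c) : A[X] :=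
  ∏ j ∈ Finset.univ.erase i, lin A (j : ℕ)

/-- The differential equations of the polynomials `F i`. -/
def IsF (p c : ℕ) (F : Fin c → (ZMod p)[X]) : Prop :=
  ∀ i : Fin c, (F i).natDegree ≤ p ∧
    X * lin (ZMod p) i * derivative (F i) = C (((i : ℕ) + 1 : ℕ) : ZMod p) * (X - X ^ p)

/-- Inner variable to `X ^ p`, outer variable to `X`. -/
noncomputable def evR (p : ℕ) : (ZMod p)[X][X] →+* (ZMod p)[X] :=
  eval₂RingHom (expand (ZMod p) p).toRingHom X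

/-- Independence of the products `X ^ a (X ^ p) ^ b ∏ F i ^ e i`. -/
def Fam (p c A B : ℕ) (F : Fin c → (ZMod p)[X]) : Prop :=
  ∀ g : Fin A × Fin B × (Fin c → Fin B) → ZMod p,
    ∑ t, C (g t) * X ^ (t.1 : ℕ) * (X ^ p) ^ (t.2.1 : ℕ) * ∏ i, F i ^ (t.2.2 i : ℕ) = 0 → g = 0

/-- The span of `1, X, X ^ p`. -/
noncomputable def subU (p : ℕ) : Submodule (ZMod p) (ZMod p)[X] :=
  Submodule.span (ZMod p) {1, X, X ^ p}

/-- The span of `1` and a finite family. -/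
def subV (K : Type) [CommRing K] {A : Type} [CommRing A] [Algebra K A] {n : ℕ} (f : Fin n → A) :
    Submodule K A :=
  Submodule.span K (insert 1 (Set.range f))

/-- The span of `1` and one element. -/
def subW (K : Type) [CommRing K] {A : Type} [CommRing A] [Algebra K A] (u : A) : Submodule K A :=
  Submodule.span K {1, u}

def RecS : Prop := ∀ p : ℕ, p.Prime → 3 ≤ p → ∃ φ ω : ℕ → ZMod p,
  (∀ j k : ℕ, j < p → k < p → num p j ≡ num p k [ZMOD (p : ℤ) ^ 3] → φ j = φ k) ∧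
  (∀ k : ℕ, k + 1 < p → ((k : ZMod p) + 1) * (ω (k + 1) - ω k) = -1) ∧
  (∀ k : ℕ, k + 1 < p → ((k : ZMod p) + 1) ^ 2 * (φ (k + 1) - φ k) =
    ((k : ZMod p) + 1) * (1 - ω k) - fq p (k + 1))

def PolyS : Prop := ∀ p : ℕ, p.Prime → ∀ i : ℕ, ∃ F : (ZMod p)[X], F.natDegree ≤ p ∧
  X * lin (ZMod p) i * derivative F = C ((i + 1 : ℕ) : ZMod p) * (X - X ^ p) ∧
  ∀ k : ℕ, F.eval (k : ZMod p) = fq p (k + (i + 1)) - fq p k

def ElimS : Prop := ∀ a b n : ℕ, 0 < a → a < b → b < n + 1 →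
  ∃ (R0 : ℤ[X]) (R : ℕ → ℤ[X]), R n ≠ 0 ∧
    ∀ (K : Type) [Field K] (x : K) (φ ω t : ℕ → K),
      (∀ i : ℕ, i ≤ n → x + ((i + 1 : ℕ) : K) ≠ 0) →
      (∀ i : ℕ, i ≤ n → (x + ((i + 1 : ℕ) : K)) * (ω (i + 1) - ω i) = -1) →
      (∀ i : ℕ, i ≤ n → (x + ((i + 1 : ℕ) : K)) ^ 2 * (φ (i + 1) - φ i) =
        (x + ((i + 1 : ℕ) : K)) * (1 - ω i) - t (i + 1)) →
      φ a = φ 0 → φ b = φ 0 → φ (n + 1) = φ 0 →
      ∑ i ∈ Finset.range (n + 1), aeval x (R i) * (t (i + 1) - t 0) = aeval x R0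

def MultS : Prop := ∀ (p : ℕ) [Fact p.Prime] (Q Ψ : (ZMod p)[X]) (S : Finset (ZMod p)) (D : ℕ),
  D ≤ p → Ψ ≠ 0 → (∀ x ∈ S, Q.eval x ≠ 0) →
  (∀ j : ℕ, j < D → ∀ x ∈ S, ((fun f => Q * derivative f)^[j] Ψ).eval x = 0) →
  S.card * D ≤ Ψ.natDegree

def DimS : Prop := ∀ (K : Type) [Field K] (A : Type) [CommRing A] [Algebra K A] (n : ℕ) (u : A)
  (f : Fin n → A) (α m : ℕ),
  Module.finrank K ↥(subW K u ^ α * subV K f ^ m) ≤ (α + 1) * (m + 1) ^ n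

def FiltS : Prop := ∀ (p c : ℕ) [Fact p.Prime] (F : Fin c → (ZMod p)[X]), IsF p c F →
  ∀ (α m : ℕ) (g : (ZMod p)[X]), g ∈ subU p ^ α * subV (ZMod p) F ^ m →
    qq (ZMod p) c * derivative g ∈ subU p ^ (α + (c + 1)) * subV (ZMod p) F ^ m

def EvlS : Prop := ∀ (p n d : ℕ) [Fact p.Prime] (F R : Fin (n + 1) → (ZMod p)[X])
  (R0 : (ZMod p)[X]) (S : Finset (ZMod p)), (∀ i, (R i).natDegree ≤ d) → R0.natDegree ≤ d →
  (∀ x ∈ S, ∑ i, (R i).eval x * (F i).eval x = R0.eval x) →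
  ∀ (α m : ℕ) (g : (ZMod p)[X]), g ∈ subU p ^ α * subV (ZMod p) F ^ m →
    (fun x : ↥S => (R (Fin.last n)).eval (x : ZMod p) ^ m * g.eval (x : ZMod p)) ∈
      subW (ZMod p) (fun x : ↥S => (x : ZMod p)) ^ (α + m * d) *
        subV (ZMod p) (fun (i : Fin n) (x : ↥S) => (F i.castSucc).eval (x : ZMod p)) ^ m

def StepS : Prop := ∀ n d T : ℕ, 0 < T → ∃ A B D : ℕ, ∀ (p : ℕ) [Fact p.Prime], D ≤ p →
  ∀ F : Fin (n + 1) → (ZMod p)[X], IsF p (n + 1) F → Fam p (n + 1) A B F →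
  ∀ (R : Fin (n + 1) → (ZMod p)[X]) (R0 : (ZMod p)[X]) (S : Finset (ZMod p)),
    (∀ i, (R i).natDegree ≤ d) → R0.natDegree ≤ d →
    (∀ x ∈ S, ∑ i, (R i).eval x * (F i).eval x = R0.eval x) →
    (∀ x ∈ S, (R (Fin.last n)).eval x ≠ 0) → (∀ x ∈ S, (qq (ZMod p) (n + 1)).eval x ≠ 0) →
    T * S.card ≤ T * A + (n + 2) * p

/-- Equal order at `t` when the Wronskian vanishes. -/
def WroS : Prop := ∀ (R : Type) [CommRing R] [IsDomain R] (t : R) (A μ : ℕ) (a1 b : R[X]),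
  (∀ i j : ℕ, i ≤ A → j ≤ A → (i : R) = (j : R) → i = j) → μ ≤ A → a1.eval t ≠ 0 →
  ((X - C t) ^ μ * a1) * derivative b = derivative ((X - C t) ^ μ * a1) * b →
  (X - C t) ^ μ ∣ b

/-- A simple pole with nonzero residue is not a derivative. -/
def LocS : Prop := ∀ (R : Type) [CommRing R] [IsDomain R] (t : R) (A μ : ℕ) (a1 r w q : R[X]),
  (∀ i j : ℕ, i ≤ A → j ≤ A → (i : R) = (j : R) → i = j) → μ ≤ A → r.natDegree ≤ A →
  a1.eval t ≠ 0 → w.eval t ≠ 0 → q.eval t ≠ 0 →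
  (X - C t) * q * (((X - C t) ^ μ * a1) * derivative r - derivative ((X - C t) ^ μ * a1) * r) +
    ((X - C t) ^ μ * a1) * ((X - C t) ^ μ * w) ≠ 0

def BaseS : Prop := ∀ (p : ℕ) [Fact p.Prime] (g : (ZMod p)[X][X]), g.natDegree < p →
  evR p g = 0 → g = 0

def DerS : Prop := ∀ (p c : ℕ) [Fact p.Prime] (F : Fin c → (ZMod p)[X]), IsF p c F →
  ∀ P : MvPolynomial (Fin c) (ZMod p)[X][X], ∃ P' : MvPolynomial (Fin c) (ZMod p)[X][X],
    (∀ e : Fin c →₀ ℕ, P'.coeff e = qq (ZMod p)[X] c * derivative (P.coeff e) +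
      ∑ i : Fin c, (((i : ℕ) + 1 : ℕ) : (ZMod p)[X][X]) * qi (ZMod p)[X] c i * (X - C X) *
        (((e i + 1 : ℕ) : (ZMod p)[X][X]) * P.coeff (e + Finsupp.single i 1))) ∧
    MvPolynomial.eval₂ (evR p) F P' =
      qq (ZMod p) c * derivative (MvPolynomial.eval₂ (evR p) F P)

def IndS : Prop := ∀ (c : ℕ) (E : Finset (Fin c →₀ ℕ)),
  (∀ (e : Fin c →₀ ℕ) (i : Fin c), e + Finsupp.single i 1 ∈ E → e ∈ E) →
  ∀ A : ℕ, ∃ p0 : ℕ, ∀ (p : ℕ) [Fact p.Prime], p0 ≤ p → ∀ F : Fin c → (ZMod p)[X], IsF p c F →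
    ∀ P : MvPolynomial (Fin c) (ZMod p)[X][X], P.support ⊆ E →
      (∀ e, (P.coeff e).natDegree ≤ A) → MvPolynomial.eval₂ (evR p) F P = 0 → P = 0

def FamS : Prop := ∀ c A B : ℕ, ∃ p0 : ℕ, ∀ (p : ℕ) [Fact p.Prime], p0 ≤ p →
  ∀ F : Fin c → (ZMod p)[X], IsF p c F → Fam p c A B F

def CountS : Prop := ∀ (N L η : ℕ) (A : Finset ℕ), 0 < L → A ⊆ Finset.range N →
  (∀ a b c : ℕ, 0 < a → a < b → b < c → c ≤ L →
    (A.filter (fun k => k + a ∈ A ∧ k + b ∈ A ∧ k + c ∈ A)).card ≤ η) →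
  A.card ≤ L ^ 3 * η + 3 * (N / L + 1)

def PatS : Prop := ∀ a b c T : ℕ, 0 < a → a < b → b < c → 0 < T → ∃ M p0 : ℕ,
  ∀ p : ℕ, p.Prime → p0 ≤ p → ∀ G : Finset ℕ,
    (∀ k ∈ G, k + c < p ∧ num p (k + a) ≡ num p k [ZMOD (p : ℤ) ^ 3] ∧
      num p (k + b) ≡ num p k [ZMOD (p : ℤ) ^ 3] ∧ num p (k + c) ≡ num p k [ZMOD (p : ℤ) ^ 3]) →
    T * G.card ≤ T * M + (c + 1) * p

end Pool.Agent.MP_0c16b3_nt.W
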