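import Pool.Agent.MP_0c16b3_nt.W.Spec

/-! The auxiliary polynomial and the bound for the set of zeros. -/

namespace Pool.Agent.MP_0c16b3_nt.W

open Polynomial

namespace Step

theorem pow_mono {K A : Type} [CommRing K] [CommRing A] [Algebra K A] (U : Submodule K A)
    (h : (1 : A) ∈ U) {a b : ℕ} (hab : a ≤ b) : U ^ a ≤ U ^ b :=
  pow_le_pow_right' (Submodule.one_le.2 h) hab

theorem prod_mem {K A : Type} [CommRing K] [CommRing A] [Algebra K A] (V : Submodule K A)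
    {ι : Type} (s : Finset ι) (f : ι → A) (e : ι → ℕ) (h : ∀ i, f i ∈ V) :
    ∏ i ∈ s, f i ^ e i ∈ V ^ (∑ i ∈ s, e i) := by
  classical
  induction s using Finset.induction_on with
  | empty => simpa using Submodule.one_le.1 (le_refl (1 : Submodule K A))
  | insert a s ha ih =>
    rw [Finset.prod_insert ha, Finset.sum_insert ha, pow_add]
    exact Submodule.mul_mem_mul (Submodule.pow_mem_pow V (h a) _) ih

/-- The monomials. -/
noncomputable def mon (p c A B : ℕ) (F : Fin c → (ZMod p)[X])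
    (t : Fin A × Fin B × (Fin c → Fin B)) : (ZMod p)[X] :=
  X ^ (t.1 : ℕ) * (X ^ p) ^ (t.2.1 : ℕ) * ∏ i, F i ^ (t.2.2 i : ℕ)

theorem sum_le (c B : ℕ) (e : Fin c → Fin B) : ∑ i, (e i : ℕ) ≤ c * B := by
  calc ∑ i, (e i : ℕ) ≤ ∑ _i : Fin c, B := Finset.sum_le_sum fun i _ => (e i).2.le
    _ = c * B := by simp

theorem one_U (p : ℕ) : (1 : (ZMod p)[X]) ∈ subU p := Submodule.subset_span (by simp)

theorem mon_mem (p c A B : ℕ) (F : Fin c → (ZMod p)[X]) (t : Fin A × Fin B × (Fin c → Fin B)) :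
    mon p c A B F t ∈ subU p ^ (A + B) * subV (ZMod p) F ^ (c * B) := by
  have h1 : (X : (ZMod p)[X]) ∈ subU p := Submodule.subset_span (by simp)
  have h2 : (X ^ p : (ZMod p)[X]) ∈ subU p := Submodule.subset_span (by simp)
  have h3 : ∀ i, F i ∈ subV (ZMod p) F := fun i => Submodule.subset_span (by simp)
  have h4 : (1 : (ZMod p)[X]) ∈ subV (ZMod p) F := Submodule.subset_span (by simp)
  refine Submodule.mul_mem_mul ?_
    (pow_mono _ h4 (sum_le c B t.2.2) (prod_mem _ _ F (fun i => (t.2.2 i : ℕ)) h3))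
  rw [pow_add]
  exact Submodule.mul_mem_mul (pow_mono _ (one_U p) t.1.2.le (Submodule.pow_mem_pow _ h1 _))
    (pow_mono _ (one_U p) t.2.1.2.le (Submodule.pow_mem_pow _ h2 _))

theorem mon_deg (p c A B : ℕ) (F : Fin c → (ZMod p)[X]) (hF : ∀ i, (F i).natDegree ≤ p)
    (t : Fin A × Fin B × (Fin c → Fin B)) :
    (mon p c A B F t).natDegree ≤ A + (c + 1) * p * B := by
  have h1 : ((X : (ZMod p)[X]) ^ (t.1 : ℕ)).natDegree ≤ A :=
    (natDegree_X_pow_le _).trans t.1.2.le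
  have h2 : (((X : (ZMod p)[X]) ^ p) ^ (t.2.1 : ℕ)).natDegree ≤ p * B := by
    rw [← pow_mul]
    exact (natDegree_X_pow_le _).trans (Nat.mul_le_mul_left _ t.2.1.2.le)
  have h3 : (∏ i, F i ^ (t.2.2 i : ℕ)).natDegree ≤ c * (B * p) := by
    refine (natDegree_prod_le _ _).trans ?_
    calc ∑ i, (F i ^ (t.2.2 i : ℕ)).natDegree ≤ ∑ _i : Fin c, B * p :=
          Finset.sum_le_sum fun i _ =>
            natDegree_pow_le.trans (Nat.mul_le_mul (t.2.2 i).2.le (hF i))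
      _ = c * (B * p) := by simp
  have h4 := natDegree_mul_le (p := (X : (ZMod p)[X]) ^ (t.1 : ℕ))
    (q := ((X : (ZMod p)[X]) ^ p) ^ (t.2.1 : ℕ))
  have h5 := natDegree_mul_le
    (p := (X : (ZMod p)[X]) ^ (t.1 : ℕ) * ((X : (ZMod p)[X]) ^ p) ^ (t.2.1 : ℕ))
    (q := ∏ i, F i ^ (t.2.2 i : ℕ))
  have h6 : (c + 1) * p * B = p * B + c * (B * p) := by ring
  unfold mon
  omega

theorem count (n T A B z : ℕ) (hA : 0 < A) (hB : B = 2 * T * (n + 2) ^ n + 1)
    (hz : z ≤ 2 * A * ((n + 1) * B + 1) ^ n) : T * B * z < A * (B * B ^ (n + 1)) := by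
  have hB0 : 0 < B := by omega
  have h1 : ((n + 1) * B + 1) ^ n ≤ ((n + 2) * B) ^ n :=
    Nat.pow_le_pow_left (by nlinarith) _
  have h2 : 0 < A * B * B ^ n := by positivity
  calc T * B * z ≤ T * B * (2 * A * ((n + 2) * B) ^ n) :=
        Nat.mul_le_mul_left _ (hz.trans (Nat.mul_le_mul_left _ h1))
    _ = (2 * T * (n + 2) ^ n) * (A * B * B ^ n) := by rw [mul_pow]; ring
    _ < B * (A * B * B ^ n) := Nat.mul_lt_mul_of_pos_right (by omega) h2
    _ = A * (B * B ^ (n + 1)) := by ring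

theorem core (hM : MultS) (hD : DimS) (hF : FiltS) (hE : EvlS) (n d T A B : ℕ) (hT : 0 < T)
    (hB : B = 2 * T * (n + 2) ^ n + 1)
    (hA : A = B + T * B * (n + 1 + 1) + (n + 1) * B * d + 1)
    (p : ℕ) [Fact p.Prime] (hp : T * B ≤ p)
    (F : Fin (n + 1) → (ZMod p)[X]) (hI : IsF p (n + 1) F) (hfam : Fam p (n + 1) A B F)
    (R : Fin (n + 1) → (ZMod p)[X]) (R0 : (ZMod p)[X]) (S : Finset (ZMod p))
    (hR : ∀ i, (R i).natDegree ≤ d) (hR0 : R0.natDegree ≤ d)
    (hS : ∀ x ∈ S, ∑ i, (R i).eval x * (F i).eval x = R0.eval x)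
    (hl : ∀ x ∈ S, (R (Fin.last n)).eval x ≠ 0)
    (hq : ∀ x ∈ S, (qq (ZMod p) (n + 1)).eval x ≠ 0) :
    T * S.card ≤ T * A + (n + 2) * p := by
  classical
  let Ψ : (Fin A × Fin B × (Fin (n + 1) → Fin B) → ZMod p) →ₗ[ZMod p] (ZMod p)[X] :=
    Fintype.linearCombination (ZMod p) (mon p (n + 1) A B F)
  have hΨ : ∀ g, Ψ g = ∑ t, g t • mon p (n + 1) A B F t := fun g =>
    Fintype.linearCombination_apply _ _ _
  let Dl : Module.End (ZMod p) (ZMod p)[X] :=
    (LinearMap.mulLeft (ZMod p) (qq (ZMod p) (n + 1))) ∘ₗ derivative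
  have hDl : ∀ (j : ℕ) (f : (ZMod p)[X]),
      (Dl ^ j) f = (fun f => qq (ZMod p) (n + 1) * derivative f)^[j] f := fun j f =>
    Module.End.pow_apply Dl j f
  have hmem : ∀ g (j : ℕ), (Dl ^ j) (Ψ g) ∈
      subU p ^ (A + B + j * (n + 1 + 1)) * subV (ZMod p) F ^ ((n + 1) * B) := by
    intro g j
    rw [hDl]
    induction j with
    | zero =>
      simp only [zero_mul, add_zero, Function.iterate_zero, id]
      rw [hΨ]
      exact Submodule.sum_mem _ fun t _ => Submodule.smul_mem _ _ (mon_mem p (n + 1) A B F t)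
    | succ j ih =>
      rw [Function.iterate_succ_apply', show A + B + (j + 1) * (n + 1 + 1) =
        A + B + j * (n + 1 + 1) + (n + 1 + 1) by ring]
      exact hF p (n + 1) F hI _ _ _ ih
  let ev : (ZMod p)[X] →ₗ[ZMod p] (↥S → ZMod p) :=
    LinearMap.pi fun x => ((R (Fin.last n)).eval (x : ZMod p) ^ ((n + 1) * B)) • leval (x : ZMod p)
  have hev : ∀ f, ev f = fun x : ↥S =>
      (R (Fin.last n)).eval (x : ZMod p) ^ ((n + 1) * B) * f.eval (x : ZMod p) := fun f => rfl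
  let Z : Submodule (ZMod p) (↥S → ZMod p) :=
    subW (ZMod p) (fun x : ↥S => (x : ZMod p)) ^
        (A + B + T * B * (n + 1 + 1) + (n + 1) * B * d) *
      subV (ZMod p) (fun (i : Fin n) (x : ↥S) => (F i.castSucc).eval (x : ZMod p)) ^ ((n + 1) * B)
  have hZ : ∀ (j : Fin (T * B)) g, (ev ∘ₗ (Dl ^ (j : ℕ)) ∘ₗ Ψ) g ∈ Z := by
    intro j g
    rw [LinearMap.comp_apply, LinearMap.comp_apply, hev]
    refine hE p n d F R R0 S hR hR0 hS _ _ _ ?_
    refine mul_le_mul' (pow_mono _ (one_U p) ?_) (le_refl _) (hmem g j)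
    exact Nat.add_le_add_left (Nat.mul_le_mul_right _ j.2.le) _
  let L : (Fin A × Fin B × (Fin (n + 1) → Fin B) → ZMod p) →ₗ[ZMod p] (Fin (T * B) → ↥Z) :=
    LinearMap.pi fun j => LinearMap.codRestrict Z (ev ∘ₗ (Dl ^ (j : ℕ)) ∘ₗ Ψ) (hZ j)
  have hz : Module.finrank (ZMod p) ↥Z ≤ 2 * A * ((n + 1) * B + 1) ^ n := by
    refine (hD (ZMod p) _ n _ _ _ _).trans (le_of_eq ?_)
    congr 1
    omega
  have hlt : Module.finrank (ZMod p) (Fin (T * B) → ↥Z) <
      Module.finrank (ZMod p) (Fin A × Fin B × (Fin (n + 1) → Fin B) → ZMod p) := by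
    rw [Module.finrank_pi_fintype, Module.finrank_fintype_fun_eq_card]
    simp only [Finset.sum_const, Finset.card_univ, Fintype.card_fin, smul_eq_mul,
      Fintype.card_prod, Fintype.card_fun]
    exact count n T A B _ (by omega) hB hz
  obtain ⟨g, hg, hg0⟩ :=
    (Submodule.ne_bot_iff _).1 (LinearMap.ker_ne_bot_of_finrank_lt (f := L) hlt)
  have hΨ0 : Ψ g ≠ 0 := by
    intro h
    refine hg0 (hfam g ?_)
    rw [← h, hΨ]
    refine Finset.sum_congr rfl fun t _ => ?_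
    rw [smul_eq_C_mul, mon]
    ring
  have hzero : ∀ j : ℕ, j < T * B → ∀ x ∈ S,
      ((fun f => qq (ZMod p) (n + 1) * derivative f)^[j] (Ψ g)).eval x = 0 := by
    intro j hj x hx
    have h1 : L g ⟨j, hj⟩ = 0 := by rw [LinearMap.mem_ker.1 hg]; rfl
    have h2 : ev ((Dl ^ j) (Ψ g)) = 0 := congrArg Subtype.val h1
    have h3 := congrFun h2 ⟨x, hx⟩
    rw [hev, hDl] at h3
    exact (mul_eq_zero.1 h3).resolve_left (pow_ne_zero _ (hl x hx))
  have hc := hM p _ (Ψ g) S (T * B) hp hΨ0 hq hzero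
  have hdeg : (Ψ g).natDegree ≤ A + (n + 1 + 1) * p * B := by
    rw [hΨ]
    exact natDegree_sum_le_of_forall_le _ _ fun t _ =>
      (natDegree_smul_le _ _).trans (mon_deg p (n + 1) A B F (fun i => (hI i).1) t)
  have hB0 : 0 < B := by omega
  have hAB : A ≤ T * A * B := by
    calc A = 1 * A * 1 := by ring
      _ ≤ T * A * B := Nat.mul_le_mul (Nat.mul_le_mul_right _ hT) hB0
  refine Nat.le_of_mul_le_mul_right ?_ hB0
  calc T * S.card * B = S.card * (T * B) := by ring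
    _ ≤ A + (n + 1 + 1) * p * B := hc.trans hdeg
    _ ≤ T * A * B + (n + 1 + 1) * p * B := Nat.add_le_add_right hAB _
    _ = (T * A + (n + 2) * p) * B := by ring

end Step

theorem step (hM : MultS) (hD : DimS) (hF : FiltS) (hE : EvlS) : StepS := by
  intro n d T hT
  refine ⟨_, _, _, fun p _ hp F hI hfam R R0 S hR hR0 hS hl hq =>
    Step.core hM hD hF hE n d T _ _ hT rfl rfl p hp F hI hfam R R0 S hR hR0 hS hl hq⟩

end Pool.Agent.MP_0c16b3_nt.W
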